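import Pool.Agent.GraphProd.Defs

set_option autoImplicit false

namespace Pool.Agent.GraphProd

open scoped commutatorElement

variable {V : Type*} {Γ : SimpleGraph V} {G : V → Type*} [∀ v, Group (G v)]

/-- The inclusion of a vertex group as a homomorphism. -/
def injHom (Γ : SimpleGraph V) (u : V) : G u →* GraphProduct Γ G :=
  (QuotientGroup.mk' (Subgroup.normalClosure (relators Γ G))).comp Monoid.CoprodI.of

theorem injHom_apply (u : V) (g : G u) : injHom Γ u g = inj Γ u g := rfl

theorem inj_mul (u : V) (g h : G u) : inj Γ u (g * h) = inj Γ u g * inj Γ u h :=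
  map_mul (injHom Γ u) g h

theorem inj_one (u : V) : inj Γ u (1 : G u) = 1 := map_one (injHom Γ u)

theorem inj_inv (u : V) (g : G u) : inj Γ u g⁻¹ = (inj Γ u g)⁻¹ := map_inv (injHom Γ u) g

theorem inj_comm {u v : V} (h : Γ.Adj u v) (g : G u) (k : G v) :
    inj Γ u g * inj Γ v k = inj Γ v k * inj Γ u g := by
  have h1 : ((⁅(Monoid.CoprodI.of g : Monoid.CoprodI G), Monoid.CoprodI.of k⁆ :
      Monoid.CoprodI G) : GraphProduct Γ G) = 1 := by
    rw [QuotientGroup.eq_one_iff]
    exact Subgroup.subset_normalClosure ⟨u, v, g, k, h, rfl⟩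
  have h2 : ⁅inj Γ u g, inj Γ v k⁆ = 1 := h1
  exact commutatorElement_eq_one_iff_mul_comm.mp h2

/-- Universal property of the graph product. -/
def lift {H : Type*} [Group H] (φ : ∀ u, G u →* H)
    (hφ : ∀ u v, Γ.Adj u v → ∀ (g : G u) (k : G v), φ u g * φ v k = φ v k * φ u g) :
    GraphProduct Γ G →* H :=
  QuotientGroup.lift _ (Monoid.CoprodI.lift φ) (by
    apply Subgroup.normalClosure_le_normal
    rintro _ ⟨u, v, g, k, h, rfl⟩
    change Monoid.CoprodI.lift φ _ = 1
    rw [map_commutatorElement, Monoid.CoprodI.lift_of, Monoid.CoprodI.lift_of,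
      commutatorElement_eq_one_iff_mul_comm]
    exact hφ u v h g k)

theorem lift_inj {H : Type*} [Group H] (φ : ∀ u, G u →* H)
    (hφ : ∀ u v, Γ.Adj u v → ∀ (g : G u) (k : G v), φ u g * φ v k = φ v k * φ u g)
    (u : V) (g : G u) : lift φ hφ (inj Γ u g) = φ u g :=
  Monoid.CoprodI.lift_of φ g

/-- The vertex groups generate the graph product. -/
theorem parabolic_univ : parabolic Γ G Set.univ = ⊤ := by
  rw [eq_top_iff]
  rintro x -
  obtain ⟨w, rfl⟩ := QuotientGroup.mk_surjective x
  induction w using Monoid.CoprodI.induction_on with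
  | one => exact Subgroup.one_mem _
  | of i m => exact Subgroup.subset_closure ⟨i, Set.mem_univ i, m, rfl⟩
  | mul a b ha hb => exact Subgroup.mul_mem _ ha hb

theorem gp_induction {P : GraphProduct Γ G → Prop} (h1 : P 1)
    (hmul : ∀ (u : V) (g : G u) (x : GraphProduct Γ G), P x → P (inj Γ u g * x))
    (x : GraphProduct Γ G) : P x := by
  have hx : x ∈ parabolic Γ G Set.univ := by rw [parabolic_univ]; exact Subgroup.mem_top x
  induction hx using Subgroup.closure_induction_left with
  | one => exact h1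
  | mul_left a ha y _ hy =>
    obtain ⟨u, -, g, rfl⟩ := ha
    exact hmul u g y hy
  | inv_mul_cancel a ha y _ hy =>
    obtain ⟨u, -, g, rfl⟩ := ha
    rw [← inj_inv]
    exact hmul u g⁻¹ y hy

theorem parabolic_mono {Λ Λ' : Set V} (h : Λ ⊆ Λ') : parabolic Γ G Λ ≤ parabolic Γ G Λ' := by
  apply Subgroup.closure_mono
  rintro _ ⟨u, hu, g, rfl⟩
  exact ⟨u, h hu, g, rfl⟩

theorem inj_mem_parabolic {Λ : Set V} {u : V} (h : u ∈ Λ) (g : G u) :
    inj Γ u g ∈ parabolic Γ G Λ := Subgroup.subset_closure ⟨u, h, g, rfl⟩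

section Cayley

variable {H : Type*} [Group H] {S : Set H}

theorem cayley_adj_mul (x a b : H) (h : (cayleyGraph S).Adj a b) :
    (cayleyGraph S).Adj (x * a) (x * b) := by
  obtain ⟨h1, h2⟩ := h
  refine ⟨fun e => h1 (mul_left_cancel e), ?_⟩
  rcases h2 with h2 | h2
  · left
    rwa [mul_inv_rev, mul_assoc, inv_mul_cancel_left]
  · right
    rwa [mul_inv_rev, mul_assoc, inv_mul_cancel_left]

/-- If `lam` grows by at most one under left multiplication by generators and their inverses then
it bounds the distance in the Cayley graph from below. -/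
theorem lam_le_dist (hc : (cayleyGraph S).Connected) {lam : H → ℕ} (h1 : lam 1 = 0)
    (hS : ∀ s ∈ S, ∀ g, lam (s * g) ≤ lam g + 1)
    (hS' : ∀ s ∈ S, ∀ g, lam (s⁻¹ * g) ≤ lam g + 1) (x y : H) :
    lam (x⁻¹ * y) ≤ (cayleyGraph S).dist x y := by
  obtain ⟨w, hw⟩ := hc.exists_walk_length_eq_dist x y
  rw [← hw]
  clear hw
  induction w with
  | nil => simp [h1]
  | cons h p ih =>
    rename_i a b c
    rw [SimpleGraph.Walk.length_cons]
    have e : a⁻¹ * c = (a⁻¹ * b) * (b⁻¹ * c) := by group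
    rw [e]
    refine le_trans ?_ (Nat.add_le_add_right ih 1)
    rcases h.2 with h2 | h2
    · exact hS _ h2 _
    · have e2 : a⁻¹ * b = (b⁻¹ * a)⁻¹ := by group
      rw [e2]
      exact hS' _ h2 _

end Cayley

end Pool.Agent.GraphProd
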