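import Pool.Agent.GraphProd.Cases

set_option autoImplicit false
set_option linter.unusedSectionVars false

namespace Pool.Agent.GraphProd

section Squares

variable {V : Type*} {Γ : SimpleGraph V}

theorem IsInducedSquare.rotate {a b c d : V} (h : IsInducedSquare Γ a b c d) :
    IsInducedSquare Γ b c d a := by
  obtain ⟨h1, h2, h3, h4, h5, h6, h7, h8⟩ := h
  exact ⟨h2, h1.symm, h4, h5, h6, h3, h8, fun h => h7 h.symm⟩

theorem minsquare_vertex {Λ : Set V} (hΛ : IsMinsquare Γ Λ) {y : V} (hy : y ∈ Λ) :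
    ∃ a y' b, IsInducedSquare Γ y a y' b ∧ a ∈ Λ ∧ y' ∈ Λ ∧ b ∈ Λ := by
  set Λ' : Set V := {z | z ∈ Λ ∧ ∃ a z' b, IsInducedSquare Γ z a z' b ∧ a ∈ Λ ∧ z' ∈ Λ ∧ b ∈ Λ}
    with hΛ'
  have hsub : Λ' ⊆ Λ := fun z hz => hz.1
  have hcl : ∀ a b c d, IsInducedSquare Γ a b c d → a ∈ Λ → b ∈ Λ → c ∈ Λ → d ∈ Λ →
      a ∈ Λ' ∧ b ∈ Λ' ∧ c ∈ Λ' ∧ d ∈ Λ' := by
    intro a b c d h ha hb hc hd
    exact ⟨⟨ha, b, c, d, h, hb, hc, hd⟩, ⟨hb, c, d, a, h.rotate, hc, hd, ha⟩,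
      ⟨hc, d, a, b, h.rotate.rotate, hd, ha, hb⟩, ⟨hd, a, b, c, h.rotate.rotate.rotate, ha, hb, hc⟩⟩
  have h1 : SquareComplete Γ Λ' := by
    intro a b c d h ha hc
    obtain ⟨hb, hd⟩ := hΛ.prop.1 a b c d h (hsub ha) (hsub hc)
    obtain ⟨-, h2, -, h3⟩ := hcl a b c d h (hsub ha) hb (hsub hc) hd
    exact ⟨h2, h3⟩
  have h2 : ContainsSquare Γ Λ' := by
    obtain ⟨a, b, c, d, h, ha, hb, hc, hd⟩ := hΛ.prop.2
    obtain ⟨h3, h4, h5, h6⟩ := hcl a b c d h ha hb hc hd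
    exact ⟨a, b, c, d, h, h3, h4, h5, h6⟩
  have h3 : Λ ≤ Λ' := hΛ.2 ⟨h1, h2⟩ hsub
  exact (h3 hy).2

theorem minsquare_eq {Λ Λ' : Set V} (hΛ : IsMinsquare Γ Λ) (hΛ' : IsMinsquare Γ Λ')
    {a b c d : V} (h : IsInducedSquare Γ a b c d) (ha : a ∈ Λ) (hb : b ∈ Λ) (hc : c ∈ Λ)
    (hd : d ∈ Λ) (ha' : a ∈ Λ') (hc' : c ∈ Λ') : Λ = Λ' := by
  obtain ⟨hb', hd'⟩ := hΛ'.prop.1 a b c d h ha' hc'
  have h1 : SquareComplete Γ (Λ ∩ Λ') := by
    intro x y z w hs hx hz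
    obtain ⟨h2, h3⟩ := hΛ.prop.1 x y z w hs hx.1 hz.1
    obtain ⟨h4, h5⟩ := hΛ'.prop.1 x y z w hs hx.2 hz.2
    exact ⟨⟨h2, h4⟩, ⟨h3, h5⟩⟩
  have h2 : ContainsSquare Γ (Λ ∩ Λ') :=
    ⟨a, b, c, d, h, ⟨ha, ha'⟩, ⟨hb, hb'⟩, ⟨hc, hc'⟩, ⟨hd, hd'⟩⟩
  have h3 : Λ ≤ Λ ∩ Λ' := hΛ.2 ⟨h1, h2⟩ Set.inter_subset_left
  have h4 : Λ' ≤ Λ ∩ Λ' := hΛ'.2 ⟨h1, h2⟩ Set.inter_subset_right
  exact Set.Subset.antisymm (fun x hx => (h3 hx).2) (fun x hx => (h4 hx).1)

/-- If all triples with a centre adjacent to neither of the two others are covered then minsquares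
are closed under non-adjacency. -/
theorem minsquare_closed
    (h2 : ∀ u v, u ≠ v → ¬ Γ.Adj u v → ∃ Λ, IsMinsquare Γ Λ ∧ u ∈ Λ ∧ v ∈ Λ)
    (h3 : ∀ l k m, l ≠ k → l ≠ m → k ≠ m → ¬ Γ.Adj l k → ¬ Γ.Adj l m →
      ∃ Λ, IsMinsquare Γ Λ ∧ l ∈ Λ ∧ k ∈ Λ ∧ m ∈ Λ)
    {Λ : Set V} (hΛ : IsMinsquare Γ Λ) {y w : V} (hy : y ∈ Λ) (hyw : y ≠ w)
    (hadj : ¬ Γ.Adj y w) : w ∈ Λ := by
  obtain ⟨a, y', b, hs, ha, hy', hb⟩ := minsquare_vertex hΛ hy
  have key : ∃ Λ', IsMinsquare Γ Λ' ∧ y ∈ Λ' ∧ y' ∈ Λ' ∧ w ∈ Λ' := by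
    by_cases hw : w = y'
    · obtain ⟨Λ', h4, h5, h6⟩ := h2 y w hyw hadj
      exact ⟨Λ', h4, h5, hw ▸ h6, h6⟩
    · obtain ⟨Λ', h4, h5, h6, h7⟩ := h3 y y' w hs.1 hyw (Ne.symm hw)
        hs.2.2.2.2.2.2.1 hadj
      exact ⟨Λ', h4, h5, h6, h7⟩
  obtain ⟨Λ', h4, h5, h6, h7⟩ := key
  rw [minsquare_eq hΛ h4 hs hy ha hy' hb h5 h6]
  exact h7

end Squares

section Lengths

variable {H : Type*} [Group H] {S : Set H}

theorem adj_one {s : H} (hs : s ∈ S) (h1 : s ≠ 1) : (cayleyGraph S).Adj 1 s :=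
  ⟨h1.symm, Or.inl (by rwa [inv_one, one_mul])⟩

theorem dist_one_le {s : H} (hs : s ∈ S) : (cayleyGraph S).dist 1 s ≤ 1 := by
  by_cases h1 : s = 1
  · rw [h1, SimpleGraph.dist_self]
    exact Nat.zero_le _
  · exact (SimpleGraph.dist_eq_one_iff_adj.mpr (adj_one hs h1)).le

theorem dist_one_mul_le (hc : (cayleyGraph S).Connected) (a b : H) :
    (cayleyGraph S).dist 1 (a * b) ≤ (cayleyGraph S).dist 1 a + (cayleyGraph S).dist 1 b := by
  refine (hc.dist_triangle (v := a)).trans ?_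
  have := dist_mul_left_le hc a 1 b
  rw [mul_one] at this
  omega

theorem dist_le_one_inv_mul (hc : (cayleyGraph S).Connected) (a b : H) :
    (cayleyGraph S).dist a b ≤ (cayleyGraph S).dist 1 (a⁻¹ * b) := by
  have := dist_mul_left_le hc a 1 (a⁻¹ * b)
  rwa [mul_one, mul_inv_cancel_left] at this

theorem dist_one_pow_le (hc : (cayleyGraph S).Connected) (a : H) (n : ℕ) :
    (cayleyGraph S).dist 1 (a ^ n) ≤ n * (cayleyGraph S).dist 1 a := by
  induction n with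
  | zero => rw [pow_zero, SimpleGraph.dist_self]; exact Nat.zero_le _
  | succ n ih =>
    rw [pow_succ]
    refine (dist_one_mul_le hc _ _).trans ?_
    rw [add_mul, one_mul]
    omega

theorem dist_one_inv (hc : (cayleyGraph S).Connected) (a : H) :
    (cayleyGraph S).dist 1 a⁻¹ ≤ (cayleyGraph S).dist 1 a := by
  have := dist_le_one_inv_mul hc a 1
  have h2 := dist_mul_left_le hc a⁻¹ a 1
  rw [inv_mul_cancel, mul_one, SimpleGraph.dist_comm (u := a)] at h2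
  exact h2

theorem sup_normal {I : Type*} (N : I → Subgroup H) (hN : ∀ i, (N i).Normal) (s : Finset I) :
    (s.sup N).Normal := by
  classical
  induction s using Finset.induction_on with
  | empty => rw [Finset.sup_empty]; infer_instance
  | insert i s _ ih =>
    rw [Finset.sup_insert]
    have := hN i
    infer_instance

theorem mem_sup_insert {I : Type*} [DecidableEq I] (N : I → Subgroup H)
    (hN : ∀ i, (N i).Normal) (i : I) (s : Finset I) {x : H} (hx : x ∈ (insert i s).sup N) :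
    ∃ a ∈ N i, ∃ b ∈ s.sup N, a * b = x := by
  rw [Finset.sup_insert] at hx
  have := sup_normal N hN s
  rw [← SetLike.mem_coe, Subgroup.mul_normal] at hx
  exact Set.mem_mul.mp hx

theorem dist_sup_le (hc : (cayleyGraph S).Connected) {I : Type*} (N : I → Subgroup H)
    (hN : ∀ i, (N i).Normal) (hS : ∀ i, ∀ x ∈ N i, x ∈ S) (s : Finset I) :
    ∀ x ∈ s.sup N, (cayleyGraph S).dist 1 x ≤ s.card := by
  classical
  induction s using Finset.induction_on with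
  | empty =>
    intro x hx
    rw [Finset.sup_empty, Subgroup.mem_bot] at hx
    rw [hx, SimpleGraph.dist_self]
    exact Nat.zero_le _
  | insert i s hi ih =>
    intro x hx
    obtain ⟨a, ha, b, hb, rfl⟩ := mem_sup_insert N hN i s hx
    rw [Finset.card_insert_of_notMem hi]
    have h1 := dist_one_mul_le hc a b
    have h2 := dist_one_le (hS i a ha)
    have h3 := ih b hb
    omega

theorem finite_sup {I : Type*} (N : I → Subgroup H) (hN : ∀ i, (N i).Normal)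
    (hf : ∀ i, (N i : Set H).Finite) (s : Finset I) : ((s.sup N : Subgroup H) : Set H).Finite := by
  classical
  induction s using Finset.induction_on with
  | empty =>
    rw [Finset.sup_empty]
    exact (Set.finite_singleton (1 : H))
  | insert i s hi ih =>
    refine ((hf i).mul ih).subset ?_
    intro x hx
    obtain ⟨a, ha, b, hb, rfl⟩ := mem_sup_insert N hN i s hx
    exact Set.mul_mem_mul ha hb

end Lengths

section GP

variable {V : Type*} {Γ : SimpleGraph V} {G : V → Type*} [∀ v, Group (G v)]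

theorem commute_parabolic {Λ : Set V} {u : V} (h : ∀ v ∈ Λ, Γ.Adj u v) (a : G u)
    {x : GraphProduct Γ G} (hx : x ∈ parabolic Γ G Λ) : inj Γ u a * x = x * inj Γ u a := by
  induction hx using Subgroup.closure_induction with
  | mem s hs =>
    obtain ⟨v, hv, g, rfl⟩ := hs
    exact inj_comm (h v hv) a g
  | one => rw [mul_one, one_mul]
  | mul s t _ _ h1 h2 => rw [← mul_assoc, h1, mul_assoc, h2, mul_assoc]
  | inv s _ h1 =>
    rw [mul_inv_eq_iff_eq_mul, mul_assoc, eq_inv_mul_iff_mul_eq]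
    exact h1.symm

theorem parabolic_normal {Λ : Set V} (h : ∀ u, u ∉ Λ → ∀ v ∈ Λ, Γ.Adj u v) :
    (parabolic Γ G Λ).Normal := by
  refine ⟨fun x hx g => ?_⟩
  induction g using gp_induction with
  | h1 => rw [one_mul, inv_one, mul_one]; exact hx
  | hmul u a g ih =>
    have e : inj Γ u a * g * x * (inj Γ u a * g)⁻¹ =
        inj Γ u a * (g * x * g⁻¹) * (inj Γ u a)⁻¹ := by group
    rw [e]
    by_cases hu : u ∈ Λ
    · exact Subgroup.mul_mem _ (Subgroup.mul_mem _ (inj_mem_parabolic hu a) ih)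
        (Subgroup.inv_mem _ (inj_mem_parabolic hu a))
    · rw [commute_parabolic (h u hu) a ih, mul_inv_cancel_right]
      exact ih

theorem gens_connected (F : Set (Set V)) : (cayleyGraph (gens Γ G F)).Connected := by
  have key : ∀ x : GraphProduct Γ G, (cayleyGraph (gens Γ G F)).Reachable 1 x := by
    intro x
    induction x using gp_induction with
    | h1 => exact SimpleGraph.Reachable.refl _
    | hmul u a g ih =>
      have h1 : (cayleyGraph (gens Γ G F)).Reachable 1 (inj Γ u a) := by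
        by_cases h : inj Γ u a = 1
        · rw [h]
        · exact (adj_one (S := gens Γ G F) (Or.inl ⟨u, a, rfl⟩) h).reachable
      refine h1.trans ?_
      have h2 := ih.map (⟨fun y => inj Γ u a * y, fun {a b} h => cayley_adj_mul _ a b h⟩ :
        cayleyGraph (gens Γ G F) →g cayleyGraph (gens Γ G F))
      change (cayleyGraph (gens Γ G F)).Reachable (inj Γ u a * 1) (inj Γ u a * g) at h2
      rwa [mul_one] at h2
  exact ⟨fun x y => (key x).symm.trans (key y)⟩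

theorem sup_parabolic_eq_top [Fintype V] {N : V → Subgroup (GraphProduct Γ G)}
    (h : ∀ (v : V) (g : G v), inj Γ v g ∈ N v) : Finset.univ.sup N = ⊤ := by
  rw [eq_top_iff, ← parabolic_univ, parabolic, Subgroup.closure_le]
  rintro _ ⟨u, -, g, rfl⟩
  exact (Finset.le_sup (f := N) (Finset.mem_univ u)) (h u g)

/-- If all pairs and all triples are covered, the electrification is bounded. -/
theorem bounded_of_covered [Fintype V]
    (h2 : ∀ u v, u ≠ v → ¬ Γ.Adj u v → ∃ Λ, IsMinsquare Γ Λ ∧ u ∈ Λ ∧ v ∈ Λ)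
    (h3 : ∀ l k m, l ≠ k → l ≠ m → k ≠ m → ¬ Γ.Adj l k → ¬ Γ.Adj l m →
      ∃ Λ, IsMinsquare Γ Λ ∧ l ∈ Λ ∧ k ∈ Λ ∧ m ∈ Λ) (x y : GraphProduct Γ G) :
    (cayleyGraph (gens Γ G {Λ | IsMinsquare Γ Λ})).dist x y ≤ Fintype.card V := by
  classical
  have hc := gens_connected (Γ := Γ) (G := G) {Λ | IsMinsquare Γ Λ}
  have hblock : ∀ v : V, ∃ Λ : Set V, v ∈ Λ ∧ (∀ u, u ∉ Λ → ∀ w ∈ Λ, Γ.Adj u w) ∧
      ∀ s ∈ parabolic Γ G Λ, s ∈ gens Γ G {Λ | IsMinsquare Γ Λ} := by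
    intro v
    by_cases hv : ∃ Λ, IsMinsquare Γ Λ ∧ v ∈ Λ
    · obtain ⟨Λ, hΛ, hv⟩ := hv
      refine ⟨Λ, hv, ?_, fun s hs => Or.inr ⟨Λ, hΛ, hs⟩⟩
      intro u hu w hw
      by_contra hcon
      exact hu (minsquare_closed h2 h3 hΛ hw (by rintro rfl; exact hu hw)
        fun h => hcon h.symm)
    · refine ⟨{v}, rfl, ?_, ?_⟩
      · rintro u hu w rfl
        by_contra hcon
        obtain ⟨Λ, hΛ, h4, h5⟩ := h2 u w hu hcon
        exact hv ⟨Λ, hΛ, h5⟩
      · intro s hs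
        left
        refine ⟨v, ?_⟩
        induction hs using Subgroup.closure_induction with
        | mem s hs =>
          obtain ⟨w, rfl, g, rfl⟩ := hs
          exact ⟨g, rfl⟩
        | one => exact ⟨1, (inj_one v).symm⟩
        | mul s t _ _ h1 h2 =>
          obtain ⟨a, rfl⟩ := h1
          obtain ⟨b, rfl⟩ := h2
          exact ⟨a * b, (inj_mul v a b).symm⟩
        | inv s _ h1 =>
          obtain ⟨a, rfl⟩ := h1
          exact ⟨a⁻¹, (inj_inv v a).symm⟩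
  choose Λ hΛ1 hΛ2 hΛ3 using hblock
  refine (dist_le_one_inv_mul hc x y).trans ?_
  have htop := sup_parabolic_eq_top (Γ := Γ) (G := G) (N := fun v => parabolic Γ G (Λ v))
    (fun v g => inj_mem_parabolic (hΛ1 v) g)
  refine dist_sup_le hc (fun v => parabolic Γ G (Λ v)) (fun v => parabolic_normal (hΛ2 v)) hΛ3
    Finset.univ _ ?_
  rw [htop]
  exact Subgroup.mem_top _

end GP

end Pool.Agent.GraphProd
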