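import Pool.Agent.GraphProd.Basic

set_option autoImplicit false

namespace Pool.Agent.GraphProd

section Real

/-- Discrete intermediate value theorem. -/
theorem discrete_ivt (a : ℕ → ℝ) (b z : ℝ) (hstep : ∀ j, |a (j + 1) - a j| ≤ b)
    (h0 : a 0 ≤ z) (hb : 0 ≤ b) (hz : ∃ n, z ≤ a n) : ∃ i, |a i - z| ≤ b := by
  classical
  set i := Nat.find hz with hi
  have hi1 : z ≤ a i := Nat.find_spec hz
  refine ⟨i, ?_⟩
  rcases Nat.eq_zero_or_pos i with h | h
  · rw [h] at hi1 ⊢
    have : a 0 = z := le_antisymm h0 hi1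
    rw [this, sub_self, abs_zero]
    exact hb
  · obtain ⟨j, hj⟩ : ∃ j, i = j + 1 := ⟨i - 1, by omega⟩
    have h2 : a j < z := by
      by_contra hcon
      rw [not_lt] at hcon
      have := Nat.find_min' hz hcon
      omega
    have h3 := hstep j
    rw [← hj] at h3
    rw [abs_le] at h3 ⊢
    constructor <;> linarith

theorem no_lower_bound (F : ℤ → ℝ) (b L C r : ℝ) (hL : 1 ≤ L) (hb : 0 ≤ b)
    (hstep : ∀ j, |F (j + 1) - F j| ≤ b)
    (hgrow : ∀ i j : ℤ, |(i : ℝ) - j| / L - C ≤ |F i - F j|) (hlow : ∀ j, r < F j) : False := by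
  have hL0 : 0 < L := by linarith
  have key : ∀ j : ℤ, F 0 - r < |(j : ℝ)| / L - C → |(j : ℝ)| / L - C ≤ F j - F 0 := by
    intro j hj
    have h1 := hgrow j 0
    rw [Int.cast_zero, sub_zero] at h1
    rcases abs_cases (F j - F 0) with ⟨h2, -⟩ | ⟨h2, -⟩
    · rw [h2] at h1
      exact h1
    · rw [h2] at h1
      have := hlow j
      linarith
  obtain ⟨N, hN⟩ := exists_nat_gt (L * (C + b + (F 0 - r)))
  have hN1 : b + (F 0 - r) < (N : ℝ) / L - C := by
    have : C + b + (F 0 - r) < (N : ℝ) / L := by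
      rw [lt_div_iff₀ hL0]
      linarith
    linarith
  have hr0 : 0 < F 0 - r := by linarith [hlow 0]
  have h2 := key N (by
    rw [Int.cast_natCast, abs_of_nonneg (Nat.cast_nonneg N)]
    linarith)
  rw [Int.cast_natCast, abs_of_nonneg (Nat.cast_nonneg N)] at h2
  obtain ⟨M, hM⟩ := exists_nat_gt (L * (C + (F N - F 0) + (F 0 - r)))
  have hM1 : (F N - F 0) + (F 0 - r) < (M : ℝ) / L - C := by
    have : C + (F N - F 0) + (F 0 - r) < (M : ℝ) / L := by
      rw [lt_div_iff₀ hL0]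
      linarith
    linarith
  have h3 := key (-(M : ℤ)) (by
    rw [Int.cast_neg, Int.cast_natCast, abs_neg, abs_of_nonneg (Nat.cast_nonneg M)]
    linarith)
  rw [Int.cast_neg, Int.cast_natCast, abs_neg, abs_of_nonneg (Nat.cast_nonneg M)] at h3
  obtain ⟨i, hi⟩ := discrete_ivt (fun n : ℕ => F (-(n : ℤ))) b (F N) (by
    intro j
    have := hstep (-(j : ℤ) - 1)
    rw [sub_add_cancel, abs_sub_comm] at this
    have e : (-((j + 1 : ℕ) : ℤ)) = -(j : ℤ) - 1 := by push_cast; ring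
    change |F (-((j + 1 : ℕ) : ℤ)) - F (-(j : ℤ))| ≤ b
    rw [e]
    exact this) (by
      simp only [Nat.cast_zero, neg_zero]
      linarith) hb ⟨M, by linarith⟩
  change |F (-(i : ℤ)) - F N| ≤ b at hi
  have h4 := hgrow (-(i : ℤ)) N
  rw [Int.cast_neg, Int.cast_natCast, Int.cast_natCast] at h4
  have h5 : (N : ℝ) ≤ |-(i : ℝ) - N| := by
    rw [← abs_neg]
    refine le_trans ?_ (le_abs_self _)
    have : (0 : ℝ) ≤ i := Nat.cast_nonneg i
    linarith
  have h6 : (N : ℝ) / L ≤ |-(i : ℝ) - N| / L := div_le_div_of_nonneg_right h5 hL0.le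
  linarith

theorem dense_of_grow (F : ℤ → ℝ) (b L C : ℝ) (hL : 1 ≤ L) (hb : 0 ≤ b)
    (hstep : ∀ j, |F (j + 1) - F j| ≤ b)
    (hgrow : ∀ i j : ℤ, |(i : ℝ) - j| / L - C ≤ |F i - F j|) (r : ℝ) : ∃ j, |F j - r| ≤ b := by
  by_contra hcon
  push Not at hcon
  have step1 : ∀ j : ℤ, r < F j → r < F (j + 1) := by
    intro j hj
    have h1 := hcon j
    have h2 := hcon (j + 1)
    have h3 := hstep j
    rw [abs_le] at h3
    rw [lt_abs] at h1 h2
    rcases h1 with h1 | h1
    · rcases h2 with h2 | h2 <;> linarith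
    · linarith
  have step2 : ∀ j : ℤ, r < F (j + 1) → r < F j := by
    intro j hj
    have h1 := hcon j
    have h2 := hcon (j + 1)
    have h3 := hstep j
    rw [abs_le] at h3
    rw [lt_abs] at h1 h2
    rcases h2 with h2 | h2
    · rcases h1 with h1 | h1 <;> linarith
    · linarith
  have hiff : ∀ j : ℤ, r < F j ↔ r < F 0 := by
    intro j
    induction j using Int.induction_on with
    | zero => exact Iff.rfl
    | succ i ih => exact ⟨fun h => ih.mp (step2 _ h), fun h => step1 _ (ih.mpr h)⟩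
    | pred i ih =>
      have e : (-(i : ℤ) - 1) + 1 = -(i : ℤ) := by ring
      constructor
      · intro h
        have := step1 _ h
        rw [e] at this
        exact ih.mp this
      · intro h
        apply step2
        rw [e]
        exact ih.mpr h
  by_cases h0 : r < F 0
  · exact no_lower_bound F b L C r hL hb hstep hgrow fun j => (hiff j).mpr h0
  · refine no_lower_bound (fun j => -F j) b L C (-r) hL hb ?_ ?_ ?_
    · intro j
      rw [← abs_neg]
      convert! hstep j using 2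
      ring
    · intro i j
      rw [← abs_neg (-F i - -F j)]
      convert! hgrow i j using 2
      ring
    · intro j
      have h1 : ¬ r < F j := fun h => h0 ((hiff j).mp h)
      have h2 := hcon j
      rcases lt_or_eq_of_le (not_lt.mp h1) with h3 | h3
      · linarith
      · rw [h3, sub_self, abs_zero] at h2
        linarith

end Real

section Group

variable {H : Type*} [Group H] {S : Set H}

/-- Three long directions in a group with respect to a set of generators. -/
def Branching (S : Set H) : Prop :=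
  ∃ (lam : H → ℕ) (h : H) (p : ℕ → H), lam 1 = 0 ∧
    (∀ s ∈ S, ∀ g, lam (s * g) ≤ lam g + 1) ∧ (∀ s ∈ S, ∀ g, lam (s⁻¹ * g) ≤ lam g + 1) ∧
    (∀ j : ℤ, j.natAbs ≤ lam (h ^ j)) ∧ ∀ (n : ℕ) (j : ℤ), n ≤ lam ((p n)⁻¹ * h ^ j)

theorem dist_mul_left_le (hc : (cayleyGraph S).Connected) (x a b : H) :
    (cayleyGraph S).dist (x * a) (x * b) ≤ (cayleyGraph S).dist a b := by
  obtain ⟨w, hw⟩ := hc.exists_walk_length_eq_dist a b
  have := SimpleGraph.dist_le (w.map (⟨fun y => x * y, fun {a b} h => cayley_adj_mul x a b h⟩ :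
    cayleyGraph S →g cayleyGraph S))
  rw [SimpleGraph.Walk.length_map, hw] at this
  exact this

theorem not_quasiLine_of_branching (hb : Branching S) : ¬ IsQuasiLine (cayleyGraph S) := by
  rintro ⟨hc, f, L, C, hL, hC, hqi, -⟩
  obtain ⟨lam, h, p, h1, h2, h3, h4, h5⟩ := hb
  have hlam := lam_le_dist hc h1 h2 h3
  have hL0 : 0 < L := by linarith
  set a := (cayleyGraph S).dist 1 h with ha
  have hstep : ∀ j : ℤ, |f (h ^ (j + 1)) - f (h ^ j)| ≤ L * a + C := by
    intro j
    rw [abs_sub_comm]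
    refine (hqi _ _).2.trans ?_
    have : (cayleyGraph S).dist (h ^ j) (h ^ (j + 1)) ≤ a := by
      have := dist_mul_left_le hc (h ^ j) 1 h
      rwa [mul_one, ← zpow_add_one] at this
    have : ((cayleyGraph S).dist (h ^ j) (h ^ (j + 1)) : ℝ) ≤ a := by exact_mod_cast this
    nlinarith
  have hgrow : ∀ i j : ℤ, |(i : ℝ) - j| / L - C ≤ |f (h ^ i) - f (h ^ j)| := by
    intro i j
    refine le_trans ?_ (hqi _ _).1
    have h6 : (-i + j).natAbs ≤ (cayleyGraph S).dist (h ^ i) (h ^ j) := by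
      refine (h4 (-i + j)).trans ?_
      have := hlam (h ^ i) (h ^ j)
      rwa [← zpow_neg, ← zpow_add] at this
    have h7 : |(i : ℝ) - j| ≤ ((cayleyGraph S).dist (h ^ i) (h ^ j) : ℝ) := by
      have h8 : (((-i + j).natAbs : ℕ) : ℝ) ≤ ((cayleyGraph S).dist (h ^ i) (h ^ j) : ℝ) := by
        exact_mod_cast h6
      rw [Nat.cast_natAbs] at h8
      push_cast at h8
      rw [abs_sub_comm]
      convert! h8 using 2
      ring
    have := div_le_div_of_nonneg_right h7 hL0.le
    linarith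
  have hb0 : 0 ≤ L * a + C := by positivity
  have hdense := dense_of_grow (fun j => f (h ^ j)) (L * a + C) L C hL hb0 hstep hgrow
  obtain ⟨n, hn⟩ := exists_nat_gt (L * ((L * a + C) + C))
  obtain ⟨j, hj⟩ := hdense (f (p n))
  rw [abs_sub_comm] at hj
  have h6 := (hqi (p n) (h ^ j)).1
  have h7 := (h5 n j).trans (hlam (p n) (h ^ j))
  have h8 : (n : ℝ) ≤ ((cayleyGraph S).dist (p n) (h ^ j) : ℝ) := by exact_mod_cast h7
  have h9 : ((cayleyGraph S).dist (p n) (h ^ j) : ℝ) / L ≤ (L * a + C) + C := by linarith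
  rw [div_le_iff₀ hL0] at h9
  linarith

theorem not_virtuallyCyclic_of_branching (hb : Branching S) : ¬ VirtuallyCyclic H := by
  rintro ⟨t, ht⟩
  obtain ⟨lam, h, p, h1, -, -, h4, h5⟩ := hb
  obtain ⟨a, ha0, -, ha⟩ := Subgroup.exists_pow_mem_of_index_ne_zero ht.index_ne_zero h
  obtain ⟨b, hb⟩ := Subgroup.mem_zpowers_iff.mp ha
  have hb0 : b ≠ 0 := by
    rintro rfl
    have := h4 a
    rw [zpow_natCast, ← hb, zpow_zero, h1, Int.natAbs_natCast] at this
    omega
  have hfin : Finite (H ⧸ Subgroup.zpowers t) := Subgroup.finite_quotient_of_finiteIndex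
  have hfin2 : Finite (Fin b.natAbs) := inferInstance
  obtain ⟨M, hM⟩ := (Set.finite_range (fun x : (H ⧸ Subgroup.zpowers t) × Fin b.natAbs =>
    lam ((t ^ (x.2 : ℕ) * (x.1.out)⁻¹)⁻¹))).bddAbove
  have key : ∀ g : H, ∃ j : ℤ, lam (g⁻¹ * h ^ j) ≤ M := by
    intro g
    set c := (QuotientGroup.mk g⁻¹ : H ⧸ Subgroup.zpowers t).out with hc
    have h6 : c⁻¹ * g⁻¹ ∈ Subgroup.zpowers t := by
      rw [← QuotientGroup.eq, hc, QuotientGroup.out_eq']
    obtain ⟨i, hi⟩ := Subgroup.mem_zpowers_iff.mp h6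
    have hg : g = t ^ (-i) * c⁻¹ := by
      rw [zpow_neg, hi]
      group
    set r := (-i) % b with hr
    set q := (-i) / b with hq
    have hqr : b * q + r = -i := Int.mul_ediv_add_emod (-i) b
    have hr0 : 0 ≤ r := Int.emod_nonneg _ hb0
    have hrb : r < b.natAbs := by
      have := Int.emod_lt_abs (-i) hb0
      rwa [Int.abs_eq_natAbs] at this
    refine ⟨a * q, ?_⟩
    have h7 : h ^ ((a : ℤ) * q) = t ^ (b * q) := by
      rw [zpow_mul, zpow_natCast, ← hb, ← zpow_mul]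
    have h8 : g⁻¹ * h ^ ((a : ℤ) * q) = (t ^ (r.toNat) * c⁻¹)⁻¹ := by
      rw [h7, hg, ← hqr, zpow_add, ← zpow_natCast, Int.toNat_of_nonneg hr0]
      have e : t ^ (b * q) * t ^ r = t ^ r * t ^ (b * q) := by
        rw [← zpow_add, ← zpow_add, add_comm]
      rw [e]
      group
    rw [h8]
    exact hM ⟨(QuotientGroup.mk g⁻¹, ⟨r.toNat, by omega⟩), rfl⟩
  obtain ⟨j, hj⟩ := key (p (M + 1))
  have := h5 (M + 1) j
  omega

theorem not_quasiLine_of_bounded {X : Type*} {E : SimpleGraph X} (N : ℕ)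
    (h : ∀ x y, E.dist x y ≤ N) : ¬ IsQuasiLine E := by
  rintro ⟨hc, f, L, C, hL, hC, hqi, hs⟩
  obtain ⟨x0⟩ := hc.nonempty
  obtain ⟨x, hx⟩ := hs (f x0 + (L * N + C) + C + 1)
  have h1 := (hqi x x0).2
  have h2 : (E.dist x x0 : ℝ) ≤ N := by exact_mod_cast h x x0
  rw [abs_le] at h1 hx
  nlinarith

end Group

end Pool.Agent.GraphProd
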