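import Pool.Agent.GraphProd.Theta

set_option autoImplicit false
set_option linter.unusedSectionVars false

namespace Pool.Agent.GraphProd

variable {V : Type*} {Γ : SimpleGraph V} {G : V → Type*} [∀ v, Group (G v)]

section Pair

open Classical in
/-- The homomorphisms to `G v` killing the other vertex groups. -/
noncomputable def betaI (v w : V) : G w →* G v :=
  if h : w = v then (by subst h; exact MonoidHom.id _) else 1

/-- The non-trivial elements. -/
def fullI {v : V} (b : G v) : Prop := b ≠ 1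

theorem betaI_self (v : V) (g : G v) : betaI v v g = g := by
  rw [betaI, dif_pos rfl]
  rfl

theorem betaI_ne {v w : V} (h : w ≠ v) (g : G w) : betaI v w g = 1 := by
  rw [betaI, dif_neg h]
  rfl

theorem good_betaI {l v : V} (h : ¬ Γ.Adj l v) : Good Γ l (betaI (G := G) v) where
  comm := by
    intro u w huw g k
    by_cases hu : u = v
    · have hw : w ≠ v := by rintro rfl; exact huw.ne hu
      rw [betaI_ne hw, mul_one, one_mul]
    · rw [betaI_ne hu, mul_one, one_mul]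
  triv := by
    intro w hw g
    exact betaI_ne (by rintro rfl; exact h hw) g

theorem tame_betaI {l v : V} {Λ : Set V} (h : ¬ (l ∈ Λ ∧ v ∈ Λ)) :
    Tame l (betaI (G := G) v) fullI Λ := by
  by_cases hl : l ∈ Λ
  · right
    refine ⟨fullI, fun h => h rfl, fun b hb => hb, ?_⟩
    intro w hw _ g c
    rw [betaI_ne (by rintro rfl; exact h ⟨hl, hw⟩), one_mul]
  · exact Or.inl hl

theorem hh_pair {l v : V} (hlv : l ≠ v) (hβ : Good Γ l (betaI (G := G) v)) (a : G l)
    (b : G v) (x : Om (G l) (G v)) :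
    theta hβ (inj Γ l a * inj Γ v b) x = permA a (permB b x) := by
  rw [map_mul, Equiv.Perm.mul_apply, theta_self, theta_ne hβ hlv.symm, betaI_self]

/-- An uncovered pair of non-adjacent vertices, one of whose groups has at least three elements. -/
theorem branching_pair {F : Set (Set V)} {u v : V} (huv : u ≠ v) (hadj : ¬ Γ.Adj u v)
    (hF : ∀ Λ ∈ F, ¬ (u ∈ Λ ∧ v ∈ Λ)) {a a' : G u} (ha : a ≠ 1) (ha' : a' ≠ 1) (haa : a ≠ a')
    {b : G v} (hb : b ≠ 1) : Branching (gens Γ G F) := by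
  have hβ := good_betaI (G := G) hadj
  have hf1 : ¬ fullI (1 : G v) := fun h => h rfl
  have hT : ∀ Λ ∈ F, Tame u (betaI (G := G) v) fullI Λ :=
    fun Λ hΛ => tame_betaI (hF Λ hΛ)
  have hh := hh_pair huv hβ a b
  refine ⟨lamT hβ fullI, inj Γ u a * inj Γ v b,
    fun n => inj Γ u (a' * a⁻¹) * (inj Γ u a * inj Γ v b) ^ n, lamT_one hβ hf1,
    fun s hs g => lamT_mul hβ hf1 hT hs g, fun s hs g => lamT_mul hβ hf1 hT (inv_mem_gens hs) g,
    natAbs_le_lamT hβ hh ha hb hb (inv_ne_one.mpr hb), ?_⟩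
  intro n j
  rcases n with _ | n
  · exact Nat.zero_le _
  set h := inj Γ u a * inj Γ v b with hdef
  have e : (inj Γ u (a' * a⁻¹) * h ^ (n + 1))⁻¹ * h ^ j =
      (h ^ n)⁻¹ * (h⁻¹ * inj Γ u (a * a'⁻¹) * h ^ j) := by
    have e1 : (inj Γ u (a' * a⁻¹))⁻¹ = inj Γ u (a * a'⁻¹) := by
      rw [← inj_inv, mul_inv_rev, inv_inv]
    rw [mul_inv_rev, e1, pow_succ', mul_inv_rev]
    group
  change n + 1 ≤ lamT hβ _ ((inj Γ u (a' * a⁻¹) * h ^ (n + 1))⁻¹ * h ^ j)
  rw [e, lamT, map_mul, Equiv.Perm.mul_apply, iter_neg hβ hh, map_mul, Equiv.Perm.mul_apply,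
    map_mul, Equiv.Perm.mul_apply, theta_inv_apply hβ hh, theta_self]
  have e2 : ∀ x : Om (G u) (G v), permA a⁻¹ (permA (a * a'⁻¹) x) = permA a'⁻¹ x := by
    intro x
    rw [← Equiv.Perm.mul_apply, ← map_mul, inv_mul_cancel_left]
  rw [e2]
  have e3 : ∃ M, permA a'⁻¹ (theta hβ (h ^ j) (1, [])) = (1, M) := by
    rcases pow_base_cases hβ hh ha hb j with (h1 | ⟨L, h1⟩) | h1
    · rw [h1, permA_base]
      exact ⟨_, rfl⟩
    · rw [h1, permA_cons a'⁻¹ ⟨a, ha⟩ (by
        rw [Ne, inv_mul_eq_one]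
        exact haa.symm)]
      exact ⟨_, rfl⟩
    · generalize theta hβ (h ^ j) (1, []) = y at h1
      obtain ⟨b0, L⟩ := y
      simp only at h1
      subst h1
      rw [permA_of_ne (inv_ne_one.mpr ha') (inv_ne_one.mpr hb)]
      exact ⟨_, rfl⟩
  obtain ⟨M, hM⟩ := e3
  rw [hM, permB_apply, mul_one]
  have h4 := cnt_iterate (full := fullI) (inv_ne_one.mpr ha)
    (inv_ne_one.mpr hb) (inv_ne_one.mpr hb) n (inv_ne_one.mpr hb) M
  have h5 : fullI b⁻¹ := inv_ne_one.mpr hb
  rw [h4, cnt, if_pos h5]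
  omega

/-- Two uncovered pairs spanning an induced square. -/
theorem branching_square {F : Set (Set V)} {u v a b : V} (huv : u ≠ v) (hadj : ¬ Γ.Adj u v)
    (hab : a ≠ b) (hadj' : ¬ Γ.Adj a b) (hua : u ≠ a) (hub : u ≠ b) (hva : v ≠ a)
    (hvb : v ≠ b) (hF : ∀ Λ ∈ F, ¬ (u ∈ Λ ∧ v ∈ Λ)) (hF' : ∀ Λ ∈ F, ¬ (a ∈ Λ ∧ b ∈ Λ))
    {xu : G u} (hxu : xu ≠ 1) {xv : G v} (hxv : xv ≠ 1) {xa : G a} (hxa : xa ≠ 1)
    {xb : G b} (hxb : xb ≠ 1) : Branching (gens Γ G F) := by
  have hβ := good_betaI (G := G) hadj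
  have hβ' := good_betaI (G := G) hadj'
  have hf1 : ¬ fullI (1 : G v) := fun h => h rfl
  have hf1' : ¬ fullI (1 : G b) := fun h => h rfl
  have hT : ∀ Λ ∈ F, Tame u (betaI (G := G) v) fullI Λ :=
    fun Λ hΛ => tame_betaI (hF Λ hΛ)
  have hT' : ∀ Λ ∈ F, Tame a (betaI (G := G) b) fullI Λ :=
    fun Λ hΛ => tame_betaI (hF' Λ hΛ)
  have hh := hh_pair huv hβ xu xv
  have hh' := hh_pair hab hβ' xa xb
  refine ⟨fun g => max (lamT hβ fullI g) (lamT hβ' fullI g),
    inj Γ u xu * inj Γ v xv, fun n => (inj Γ a xa * inj Γ b xb) ^ n, ?_, ?_, ?_, ?_, ?_⟩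
  · beta_reduce
    rw [lamT_one hβ hf1, lamT_one hβ' hf1']
    rfl
  · intro s hs g
    have h1 := lamT_mul hβ hf1 hT hs g
    have h2 := lamT_mul hβ' hf1' hT' hs g
    beta_reduce
    omega
  · intro s hs g
    have h1 := lamT_mul hβ hf1 hT (inv_mem_gens hs) g
    have h2 := lamT_mul hβ' hf1' hT' (inv_mem_gens hs) g
    beta_reduce
    omega
  · intro j
    exact (natAbs_le_lamT hβ hh hxu hxv hxv (inv_ne_one.mpr hxv) j).trans (le_max_left _ _)
  · intro n j
    refine le_trans ?_ (le_max_right _ _)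
    have h3 : theta hβ' ((inj Γ u xu * inj Γ v xv) ^ j) = 1 := by
      rw [map_zpow, map_mul, theta_ne hβ' hua, theta_ne hβ' hva, betaI_ne hub, betaI_ne hvb,
        map_one, mul_one, one_zpow]
    rw [lamT, map_mul, h3, mul_one, iter_neg hβ' hh']
    exact cnt_neg (inv_ne_one.mpr hxa) (inv_ne_one.mpr hxb) (inv_ne_one.mpr hxb) n

end Pair

section Triple

open Classical in
/-- The homomorphisms to `G k × G m` killing the other vertex groups. -/
noncomputable def betaP (k m w : V) : G w →* G k × G m :=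
  if h : w = k then (by subst h; exact MonoidHom.inl _ _)
  else if h : w = m then (by subst h; exact MonoidHom.inr _ _) else 1

theorem betaP_k (k m : V) (g : G k) : betaP k m k g = (g, 1) := by
  rw [betaP, dif_pos rfl]
  rfl

theorem betaP_m {k m : V} (h : m ≠ k) (g : G m) : betaP k m m g = (1, g) := by
  rw [betaP, dif_neg h, dif_pos rfl]
  rfl

theorem betaP_ne {k m w : V} (h : w ≠ k) (h' : w ≠ m) (g : G w) : betaP k m w g = 1 := by
  rw [betaP, dif_neg h, dif_neg h']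
  rfl

theorem betaP_fst {k m w : V} (h : w ≠ k) (g : G w) : (betaP k m w g).1 = 1 := by
  by_cases h' : w = m
  · subst h'
    rw [betaP_m h]
  · rw [betaP_ne h h']
    rfl

theorem betaP_snd {k m w : V} (hkm : k ≠ m) (h : w ≠ m) (g : G w) :
    (betaP k m w g).2 = 1 := by
  by_cases h' : w = k
  · subst h'
    rw [betaP_k]
  · rw [betaP_ne h' h]
    rfl

theorem good_betaP {l k m : V} (hkm : k ≠ m) (hk : ¬ Γ.Adj l k) (hm : ¬ Γ.Adj l m) :
    Good Γ l (betaP (G := G) k m) where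
  comm := by
    intro u w huw g x
    apply Prod.ext
    · rw [Prod.fst_mul, Prod.fst_mul]
      by_cases hu : u = k
      · have hw : w ≠ k := by rintro rfl; exact huw.ne hu
        rw [betaP_fst hw, mul_one, one_mul]
      · rw [betaP_fst hu, mul_one, one_mul]
    · rw [Prod.snd_mul, Prod.snd_mul]
      by_cases hu : u = m
      · have hw : w ≠ m := by rintro rfl; exact huw.ne hu
        rw [betaP_snd hkm hw, mul_one, one_mul]
      · rw [betaP_snd hkm hu, mul_one, one_mul]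
  triv := by
    intro w hw g
    exact betaP_ne (by rintro rfl; exact hk hw) (by rintro rfl; exact hm hw) g

/-- The full elements of `G k × G m`. -/
def fullP {k m : V} (b : G k × G m) : Prop := b.1 ≠ 1 ∧ b.2 ≠ 1

theorem tame_betaP {l k m : V} (hkm : k ≠ m) {Λ : Set V} (h : ¬ (l ∈ Λ ∧ k ∈ Λ ∧ m ∈ Λ)) :
    Tame l (betaP (G := G) k m) fullP Λ := by
  by_cases hl : l ∈ Λ
  · right
    by_cases hk : k ∈ Λ
    · refine ⟨fun b => b.2 ≠ 1, fun h => h rfl, fun b hb => hb.2, ?_⟩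
      intro w hw _ g c
      beta_reduce
      rw [Prod.snd_mul, betaP_snd hkm (by rintro rfl; exact h ⟨hl, hk, hw⟩), one_mul]
    · refine ⟨fun b => b.1 ≠ 1, fun h => h rfl, fun b hb => hb.1, ?_⟩
      intro w hw _ g c
      beta_reduce
      rw [Prod.fst_mul, betaP_fst (by rintro rfl; exact hk hw), one_mul]
  · exact Or.inl hl

/-- An uncovered triple `l, k, m` with `l` adjacent to neither `k` nor `m`. -/
theorem branching_triple {F : Set (Set V)} {l k m : V} (hlk : l ≠ k) (hlm : l ≠ m)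
    (hkm : k ≠ m) (hk : ¬ Γ.Adj l k) (hm : ¬ Γ.Adj l m)
    (hF : ∀ Λ ∈ F, ¬ (l ∈ Λ ∧ k ∈ Λ ∧ m ∈ Λ)) {a : G l} (ha : a ≠ 1) {x : G k} (hx : x ≠ 1)
    {y : G m} (hy : y ≠ 1) : Branching (gens Γ G F) := by
  have hβ := good_betaP (G := G) hkm hk hm
  have hf1 : ¬ fullP (1 : G k × G m) := fun h => h.1 rfl
  have hT : ∀ Λ ∈ F, Tame l (betaP (G := G) k m) fullP Λ :=
    fun Λ hΛ => tame_betaP hkm (hF Λ hΛ)
  have hκ : ((x, y) : G k × G m) ≠ 1 := fun h => hx (congrArg Prod.fst h)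
  have hfull : fullP ((x, y) : G k × G m) := ⟨hx, hy⟩
  have hfull' : fullP ((x, y) : G k × G m)⁻¹ := ⟨inv_ne_one.mpr hx, inv_ne_one.mpr hy⟩
  have hh : ∀ z, theta hβ (inj Γ l a * (inj Γ k x * inj Γ m y)) z =
      permA a (permB (x, y) z) := by
    intro z
    have e0 : ((x, 1) : G k × G m) * (1, y) = (x, y) := by
      rw [Prod.mk_mul_mk, mul_one, one_mul]
    have e1 : permB ((x, y) : G k × G m) z = permB (x, 1) (permB (1, y) z) := by
      rw [← e0, map_mul, Equiv.Perm.mul_apply]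
    rw [e1, map_mul, Equiv.Perm.mul_apply, theta_self, map_mul, Equiv.Perm.mul_apply,
      theta_ne hβ hlk.symm, theta_ne hβ hlm.symm, betaP_k, betaP_m hkm.symm]
  refine ⟨lamT hβ fullP, inj Γ l a * (inj Γ k x * inj Γ m y),
    fun n => inj Γ k x * (inj Γ l a * (inj Γ k x * inj Γ m y)) ^ n, lamT_one hβ hf1,
    fun s hs g => lamT_mul hβ hf1 hT hs g, fun s hs g => lamT_mul hβ hf1 hT (inv_mem_gens hs) g,
    natAbs_le_lamT hβ hh ha hκ hfull hfull', ?_⟩
  intro n j
  set h := inj Γ l a * (inj Γ k x * inj Γ m y) with hdef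
  have e : (inj Γ k x * h ^ n)⁻¹ * h ^ j = (h ^ n)⁻¹ * (inj Γ k x⁻¹ * h ^ j) := by
    rw [mul_inv_rev, inj_inv, mul_assoc]
  change n ≤ lamT hβ _ ((inj Γ k x * h ^ n)⁻¹ * h ^ j)
  rw [e, lamT, map_mul, Equiv.Perm.mul_apply, iter_neg hβ hh, map_mul, Equiv.Perm.mul_apply,
    theta_ne hβ hlk.symm, betaP_k]
  have e3 : (permB ((x⁻¹, 1) : G k × G m) (theta hβ (h ^ j) (1, []))).1 ≠ 1 := by
    rw [permB_apply]
    rcases pow_base_cases hβ hh ha hκ j with (h1 | ⟨L, h1⟩) | h1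
    · rw [h1]
      intro h2
      have := congrArg Prod.fst h2
      simp only [mul_one] at this
      exact hx (inv_eq_one.mp this)
    · rw [h1]
      intro h2
      have := congrArg Prod.fst h2
      simp only [mul_one] at this
      exact hx (inv_eq_one.mp this)
    · rw [h1]
      intro h2
      have := congrArg Prod.snd h2
      simp only [Prod.snd_mul, one_mul, Prod.snd_inv, Prod.snd_one] at this
      exact hy (inv_eq_one.mp this)
  generalize permB ((x⁻¹, 1) : G k × G m) (theta hβ (h ^ j) (1, [])) = z at e3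
  obtain ⟨b0, L⟩ := z
  have h4 := cnt_iterate (full := fullP) (inv_ne_one.mpr ha) (inv_ne_one.mpr hκ) hfull' n e3 L
  rw [h4]
  omega

end Triple

end Pool.Agent.GraphProd
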