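import Mathlib

set_option autoImplicit false

/-!
# Graph products and their electrifications (MP_7fb950_al): definitions
-/

namespace Pool.Agent.GraphProd

open scoped commutatorElement

section Groups

variable {V : Type*} (Γ : SimpleGraph V) (G : V → Type*) [∀ v, Group (G v)]

/-- The relations of the graph product: commutators of elements of adjacent vertex groups. -/
def relators : Set (Monoid.CoprodI G) :=
  {w | ∃ (u v : V) (g : G u) (h : G v), Γ.Adj u v ∧
    w = ⁅(Monoid.CoprodI.of g : Monoid.CoprodI G), Monoid.CoprodI.of h⁆}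

/-- The graph product `ΓG`: the free product of the vertex groups modulo the relations
`[g, h] = 1` for `g ∈ G_u`, `h ∈ G_v`, `u` and `v` adjacent. -/
abbrev GraphProduct : Type _ := Monoid.CoprodI G ⧸ Subgroup.normalClosure (relators Γ G)

variable {G} in
/-- The image of an element of a vertex group in the graph product. -/
def inj (u : V) (g : G u) : GraphProduct Γ G := QuotientGroup.mk (Monoid.CoprodI.of g)

/-- The subgroup `⟨Λ⟩` generated by the vertex groups `G_u`, `u ∈ Λ`. -/
def parabolic (Λ : Set V) : Subgroup (GraphProduct Γ G) :=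
  Subgroup.closure {s | ∃ u ∈ Λ, ∃ g : G u, s = inj Γ u g}

end Groups

section Squares

variable {V : Type*} (Γ : SimpleGraph V)

/-- `a, b, c, d` (in this cyclic order) form an induced square of `Γ`; the opposite vertices are
`a, c` and `b, d`. -/
def IsInducedSquare (a b c d : V) : Prop :=
  a ≠ c ∧ b ≠ d ∧ Γ.Adj a b ∧ Γ.Adj b c ∧ Γ.Adj c d ∧ Γ.Adj d a ∧ ¬ Γ.Adj a c ∧ ¬ Γ.Adj b d

/-- `Λ` is square-complete: an induced square with two opposite vertices in `Λ` has all its
vertices in `Λ`. -/
def SquareComplete (Λ : Set V) : Prop :=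
  ∀ a b c d, IsInducedSquare Γ a b c d → a ∈ Λ → c ∈ Λ → b ∈ Λ ∧ d ∈ Λ

/-- `Λ` contains an induced square. -/
def ContainsSquare (Λ : Set V) : Prop :=
  ∃ a b c d, IsInducedSquare Γ a b c d ∧ a ∈ Λ ∧ b ∈ Λ ∧ c ∈ Λ ∧ d ∈ Λ

/-- `Λ` is a minsquare subgraph: it is minimal, under inclusion, among the square-complete
subgraphs containing an induced square. -/
def IsMinsquare (Λ : Set V) : Prop :=
  Minimal (fun Λ' : Set V => SquareComplete Γ Λ' ∧ ContainsSquare Γ Λ') Λ

end Squares

/-- The Cayley graph of a group with respect to a set `S`: `g` and `h` are joined if they differ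
and `g⁻¹ h` or its inverse lies in `S`. -/
def cayleyGraph {H : Type*} [Group H] (S : Set H) : SimpleGraph H where
  Adj g h := g ≠ h ∧ (g⁻¹ * h ∈ S ∨ h⁻¹ * g ∈ S)
  symm := ⟨fun _ _ h => ⟨h.1.symm, h.2.symm⟩⟩
  loopless := ⟨fun _ h => h.1 rfl⟩

/-- The generating set of the electrification: the elements of the vertex groups and of the
subgroups generated by the minsquare subgraphs. -/
def electricGens {V : Type*} (Γ : SimpleGraph V) (G : V → Type*) [∀ v, Group (G v)] :
    Set (GraphProduct Γ G) :=
  {s | (∃ (u : V) (g : G u), s = inj Γ u g) ∨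
    ∃ Λ : Set V, IsMinsquare Γ Λ ∧ s ∈ parabolic Γ G Λ}

/-- The electrification of the graph product. -/
def electrification {V : Type*} (Γ : SimpleGraph V) (G : V → Type*) [∀ v, Group (G v)] :
    SimpleGraph (GraphProduct Γ G) :=
  cayleyGraph (electricGens Γ G)

/-- A graph (with its path metric) is a quasi-line: it is connected and quasi-isometric to the
real line. -/
def IsQuasiLine {X : Type*} (E : SimpleGraph X) : Prop :=
  E.Connected ∧ ∃ (f : X → ℝ) (L C : ℝ), 1 ≤ L ∧ 0 ≤ C ∧
    (∀ x y, (E.dist x y : ℝ) / L - C ≤ |f x - f y| ∧ |f x - f y| ≤ L * (E.dist x y : ℝ) + C) ∧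
    ∀ r : ℝ, ∃ x, |f x - r| ≤ C

/-- A group is virtually cyclic: it has a cyclic subgroup of finite index. -/
def VirtuallyCyclic (H : Type*) [Group H] : Prop :=
  ∃ t : H, (Subgroup.zpowers t).FiniteIndex

end Pool.Agent.GraphProd
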