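import Pool.Agent.GraphProd.Main

set_option autoImplicit false

/-!
# MP_7fb950_al: the square with two opposite trivial vertex groups
-/

namespace Pool.Agent.GraphProd

section Transfer

variable {H : Type*} [Group H]

theorem transfer_infinite {N N' : Subgroup H} (h : N = N') (hi : Infinite (H ⧸ N)) :
    Infinite (H ⧸ N') := by
  subst h
  exact hi

theorem transfer_vc {N N' : Subgroup H} [N.Normal] [N'.Normal] (h : N = N')
    (hi : VirtuallyCyclic (H ⧸ N)) : VirtuallyCyclic (H ⧸ N') := by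
  subst h
  exact hi

end Transfer

/-- The square on `Fin 4`. -/
def sq : SimpleGraph (Fin 4) where
  Adj x y := (x.val + y.val) % 2 = 1
  symm := ⟨fun _ _ h => by rwa [add_comm]⟩
  loopless := ⟨fun _ h => by omega⟩

/-- The square with one diagonal added. -/
def sq2 : SimpleGraph (Fin 4) where
  Adj x y := x ≠ y ∧ ¬ (x = 0 ∧ y = 2) ∧ ¬ (x = 2 ∧ y = 0)
  symm := ⟨fun x y h => ⟨h.1.symm, fun h' => h.2.2 ⟨h'.2, h'.1⟩, fun h' => h.2.1 ⟨h'.2, h'.1⟩⟩⟩
  loopless := ⟨fun x h => h.1 rfl⟩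

/-- The orders of the vertex groups. -/
def ord (v : Fin 4) : ℕ := 2 - v.val % 2

/-- The vertex groups: of order `2` at `0` and `2`, trivial at `1` and `3`. -/
abbrev Gd (v : Fin 4) : Type := Multiplicative (ZMod (ord v))

theorem ord_ne (v : Fin 4) : NeZero (ord v) := ⟨by unfold ord; omega⟩

theorem finite_Gd (v : Fin 4) : Finite (Gd v) := by
  have := ord_ne v
  change Finite (ZMod (ord v))
  infer_instance

theorem card_Gd (v : Fin 4) : Nat.card (Gd v) = ord v := by
  change Nat.card (ZMod (ord v)) = ord v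
  exact Nat.card_zmod _

theorem Gd_trivial {v : Fin 4} (hv : v.val % 2 = 1) (g : Gd v) : g = 1 := by
  have := finite_Gd v
  have h1 : Nat.card (Gd v) = 1 := by
    rw [card_Gd, ord, hv]
  rw [Nat.card_eq_one_iff_unique] at h1
  exact h1.1.elim _ _

theorem closure_eq : Subgroup.normalClosure (relators sq2 Gd) =
    Subgroup.normalClosure (relators sq Gd) := by
  apply le_antisymm
  · apply Subgroup.normalClosure_le_normal
    rintro w ⟨u, v, g, h, huv, rfl⟩
    by_cases h' : sq.Adj u v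
    · exact Subgroup.subset_normalClosure ⟨u, v, g, h, h', rfl⟩
    · have h1 : u.val % 2 = 1 := by
        obtain ⟨h1, h2, h3⟩ := huv
        have h4 : ¬ ((u.val + v.val) % 2 = 1) := h'
        have h5 : u.val ≠ v.val := fun h => h1 (Fin.ext h)
        have h6 : ¬ (u.val = 0 ∧ v.val = 2) := fun h => h2 ⟨Fin.ext h.1, Fin.ext h.2⟩
        have h7 : ¬ (u.val = 2 ∧ v.val = 0) := fun h => h3 ⟨Fin.ext h.1, Fin.ext h.2⟩
        omega
      rw [Gd_trivial h1 g, map_one, commutatorElement_one_left]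
      exact Subgroup.one_mem _
  · apply Subgroup.normalClosure_mono
    rintro w ⟨u, v, g, h, huv, rfl⟩
    refine ⟨u, v, g, h, ⟨huv.ne, ?_, ?_⟩, rfl⟩
    · rintro ⟨rfl, rfl⟩
      exact absurd (show (0 + 2) % 2 = 1 from huv) (by norm_num)
    · rintro ⟨rfl, rfl⟩
      exact absurd (show (2 + 0) % 2 = 1 from huv) (by norm_num)

theorem lineData_sq2 : Nonempty (LineData sq2 Gd) :=
  exists_lineData (u := (0 : Fin 4)) (v := (2 : Fin 4)) (by decide)
    (card_Gd 0) (card_Gd 2) (fun _ _ => Iff.rfl)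

theorem infinite_sq : Infinite (GraphProduct sq Gd) := by
  obtain ⟨D⟩ := lineData_sq2
  exact transfer_infinite closure_eq D.infinite

theorem vc_sq : VirtuallyCyclic (GraphProduct sq Gd) := by
  obtain ⟨D⟩ := lineData_sq2
  have := finite_Gd
  exact transfer_vc closure_eq D.virtuallyCyclic

theorem minsquare_sq : IsMinsquare sq Set.univ := by
  refine ⟨⟨fun _ _ _ _ _ _ _ => ⟨Set.mem_univ _, Set.mem_univ _⟩, 0, 1, 2, 3, ?_, Set.mem_univ _,
    Set.mem_univ _, Set.mem_univ _, Set.mem_univ _⟩, ?_⟩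
  · refine ⟨by decide, by decide, ?_, ?_, ?_, ?_, ?_, ?_⟩
    · change (0 + 1) % 2 = 1; norm_num
    · change (1 + 2) % 2 = 1; norm_num
    · change (2 + 3) % 2 = 1; norm_num
    · change (3 + 0) % 2 = 1; norm_num
    · change ¬ ((0 + 2) % 2 = 1); norm_num
    · change ¬ ((1 + 3) % 2 = 1); norm_num
  · rintro Λ ⟨-, a, b, c, d, ⟨h1, h2, h3, h4, h5, h6, -, -⟩, ha, hb, hc, hd⟩ - x -
    have h3' : (a.val + b.val) % 2 = 1 := h3
    have h4' : (b.val + c.val) % 2 = 1 := h4
    have h5' : (c.val + d.val) % 2 = 1 := h5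
    have h1' : a.val ≠ c.val := fun h => h1 (Fin.ext h)
    have h2' : b.val ≠ d.val := fun h => h2 (Fin.ext h)
    have hx : x.val = a.val ∨ x.val = b.val ∨ x.val = c.val ∨ x.val = d.val := by omega
    rcases hx with hx | hx | hx | hx
    · rwa [Fin.ext hx]
    · rwa [Fin.ext hx]
    · rwa [Fin.ext hx]
    · rwa [Fin.ext hx]

theorem not_isQuasiLine_sq : ¬ IsQuasiLine (electrification sq Gd) := by
  apply not_quasiLine_of_bounded 1
  intro x y
  by_cases hxy : x = y
  · subst hxy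
    rw [SimpleGraph.dist_self]
    exact Nat.zero_le _
  · apply le_of_eq
    rw [SimpleGraph.dist_eq_one_iff_adj]
    refine ⟨hxy, Or.inl (Or.inr ⟨Set.univ, minsquare_sq, ?_⟩)⟩
    rw [parabolic_univ]
    exact Subgroup.mem_top _

end Pool.Agent.GraphProd
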