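import Pool.Agent.GraphProd.Bounded

set_option autoImplicit false
set_option linter.unusedSectionVars false

namespace Pool.Agent.GraphProd

section TwoHom

variable {A : Type*} [Group A]

open Classical in
/-- The homomorphism from a group of order two to the isometries of the line. -/
noncomputable def twoHom {x : A} (hx : x ≠ 1) (h : ∀ g : A, g = 1 ∨ g = x) (c : ℤ) :
    A →* Equiv.Perm ℤ :=
  MonoidHom.mk' (fun g => if g = 1 then 1 else Equiv.subLeft c) (by
    have hxx : x * x = 1 := by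
      rcases h (x * x) with h1 | h1
      · exact h1
      · exact absurd (mul_eq_left.mp h1) hx
    intro a b
    rcases h a with rfl | rfl
    · simp
    · rcases h b with rfl | rfl
      · simp
      · rw [hxx, if_pos rfl, if_neg hx]
        ext y
        simp)

theorem twoHom_self {x : A} (hx : x ≠ 1) (h : ∀ g : A, g = 1 ∨ g = x) (c : ℤ) :
    twoHom hx h c x = Equiv.subLeft c :=
  if_neg hx

theorem twoHom_cases {x : A} (hx : x ≠ 1) (h : ∀ g : A, g = 1 ∨ g = x) (c : ℤ) (g : A) :
    twoHom hx h c g = 1 ∨ twoHom hx h c g = Equiv.subLeft c := by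
  rcases h g with rfl | rfl
  · left; exact map_one _
  · right; exact twoHom_self hx h c

end TwoHom

variable {V : Type*} {Γ : SimpleGraph V} {G : V → Type*} [∀ v, Group (G v)]

theorem mem_parabolic_singleton {w : V} {s : GraphProduct Γ G} (hs : s ∈ parabolic Γ G {w}) :
    ∃ g : G w, s = inj Γ w g := by
  induction hs using Subgroup.closure_induction with
  | mem s hs =>
    obtain ⟨w, rfl, g, rfl⟩ := hs
    exact ⟨g, rfl⟩
  | one => exact ⟨1, (inj_one w).symm⟩
  | mul s t _ _ h1 h2 =>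
    obtain ⟨a, rfl⟩ := h1
    obtain ⟨b, rfl⟩ := h2
    exact ⟨a * b, (inj_mul w a b).symm⟩
  | inv s _ h1 =>
    obtain ⟨a, rfl⟩ := h1
    exact ⟨a⁻¹, (inj_inv w a).symm⟩

/-- The data of the exceptional case. -/
structure LineData (Γ : SimpleGraph V) (G : V → Type*) [∀ v, Group (G v)] where
  /-- first vertex -/
  u : V
  /-- second vertex -/
  v : V
  huv : u ≠ v
  adj : ∀ x y, Γ.Adj x y ↔ x ≠ y ∧ ¬ (x = u ∧ y = v) ∧ ¬ (x = v ∧ y = u)
  /-- the involution of `G u` -/
  xu : G u
  /-- the involution of `G v` -/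
  xv : G v
  hxu : xu ≠ 1
  hxv : xv ≠ 1
  hu : ∀ g : G u, g = 1 ∨ g = xu
  hv : ∀ g : G v, g = 1 ∨ g = xv

namespace LineData

variable (D : LineData Γ G)

theorem adj_left {w : V} (h : w ≠ D.u) (h' : w ≠ D.v) (x : V) (hx : x ≠ w) : Γ.Adj x w :=
  (D.adj x w).mpr ⟨hx, fun h1 => h' h1.2, fun h1 => h h1.2⟩

open Classical in
/-- The homomorphisms to the isometries of the line on the vertex groups. -/
noncomputable def sigmaFun (w : V) : G w →* Equiv.Perm ℤ :=
  if h : w = D.u then (by rw [h]; exact twoHom D.hxu D.hu 1)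
  else if h : w = D.v then (by rw [h]; exact twoHom D.hxv D.hv 0) else 1

theorem sigmaFun_u : D.sigmaFun D.u = twoHom D.hxu D.hu 1 := by
  rw [sigmaFun, dif_pos rfl]
  rfl

theorem sigmaFun_v : D.sigmaFun D.v = twoHom D.hxv D.hv 0 := by
  rw [sigmaFun, dif_neg D.huv.symm, dif_pos rfl]
  rfl

theorem sigmaFun_ne {w : V} (h : w ≠ D.u) (h' : w ≠ D.v) : D.sigmaFun w = 1 := by
  rw [sigmaFun, dif_neg h, dif_neg h']

/-- The action on the line. -/
noncomputable def sigma : GraphProduct Γ G →* Equiv.Perm ℤ :=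
  lift D.sigmaFun (by
    intro x y hxy g k
    rw [D.adj] at hxy
    obtain ⟨h1, h2, h3⟩ := hxy
    by_cases hx : x ≠ D.u ∧ x ≠ D.v
    · rw [D.sigmaFun_ne hx.1 hx.2, MonoidHom.one_apply, mul_one, one_mul]
    · have hy : y ≠ D.u ∧ y ≠ D.v := by
        by_contra hcon
        rw [not_and_or, not_not, not_not] at hx hcon
        rcases hx with rfl | rfl
        · rcases hcon with h | h
          · exact h1 h.symm
          · exact h2 ⟨rfl, h⟩
        · rcases hcon with h | h
          · exact h3 ⟨rfl, h⟩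
          · exact h1 h.symm
      rw [D.sigmaFun_ne hy.1 hy.2, MonoidHom.one_apply, mul_one, one_mul])

theorem sigma_inj (w : V) (g : G w) : D.sigma (inj Γ w g) = D.sigmaFun w g :=
  lift_inj _ _ w g

theorem sigma_inj_cases (w : V) (g : G w) : D.sigma (inj Γ w g) = 1 ∨
    D.sigma (inj Γ w g) = Equiv.subLeft 1 ∨ D.sigma (inj Γ w g) = Equiv.subLeft 0 := by
  rw [sigma_inj]
  by_cases h : w = D.u
  · subst h
    rw [sigmaFun_u]
    rcases twoHom_cases D.hxu D.hu 1 g with h | h
    · exact Or.inl h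
    · exact Or.inr (Or.inl h)
  · by_cases h' : w = D.v
    · subst h'
      rw [sigmaFun_v]
      rcases twoHom_cases D.hxv D.hv 0 g with h | h
      · exact Or.inl h
      · exact Or.inr (Or.inr h)
    · rw [D.sigmaFun_ne h h']
      exact Or.inl rfl

theorem sigma_isometry (g : GraphProduct Γ G) (m n : ℤ) :
    |D.sigma g m - D.sigma g n| = |m - n| := by
  induction g using gp_induction with
  | h1 => rw [map_one]; rfl
  | hmul w a g ih =>
    rw [map_mul, Equiv.Perm.mul_apply, Equiv.Perm.mul_apply, ← ih]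
    rcases D.sigma_inj_cases w a with h | h | h
    · rw [h]; rfl
    · rw [h]
      simp only [Equiv.subLeft_apply]
      rw [← abs_neg]
      congr 1
      ring
    · rw [h]
      simp only [Equiv.subLeft_apply]
      rw [← abs_neg]
      congr 1
      ring

theorem sigma_inj_zero (w : V) (g : G w) : |D.sigma (inj Γ w g) 0| ≤ 1 := by
  rcases D.sigma_inj_cases w g with h | h | h <;> rw [h] <;> simp

/-- The translation. -/
def t : GraphProduct Γ G := inj Γ D.u D.xu * inj Γ D.v D.xv

theorem sigma_t (m : ℤ) : D.sigma D.t m = 1 + m := by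
  rw [t, map_mul, Equiv.Perm.mul_apply, sigma_inj, sigma_inj, sigmaFun_u, sigmaFun_v,
    twoHom_self, twoHom_self]
  simp

theorem sigma_zpow (n : ℤ) : D.sigma (D.t ^ n) 0 = n := by
  have h1 : ∀ (n : ℤ) (m : ℤ), D.sigma (D.t ^ n) m = n + m := by
    intro n
    induction n using Int.induction_on with
    | zero => intro m; rw [zpow_zero, map_one, zero_add]; rfl
    | succ i ih =>
      intro m
      rw [zpow_add_one, map_mul, Equiv.Perm.mul_apply, sigma_t, ih]
      ring
    | pred i ih =>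
      intro m
      have h2 := ih (m - 1)
      have h3 : D.t ^ (-(i : ℤ)) = D.t ^ (-(i : ℤ) - 1) * D.t := by
        rw [← zpow_add_one, sub_add_cancel]
      rw [h3, map_mul, Equiv.Perm.mul_apply, sigma_t] at h2
      have h4 : 1 + (m - 1) = m := by ring
      rw [h4] at h2
      rw [h2]
      ring
  rw [h1, add_zero]

/-- The other vertices. -/
abbrev I : Type _ := {w : V // w ≠ D.u ∧ w ≠ D.v}

/-- The normal subgroups attached to the other vertices. -/
def N (w : D.I) : Subgroup (GraphProduct Γ G) := parabolic Γ G {w.1}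

theorem N_normal (w : D.I) : (D.N w).Normal := by
  apply parabolic_normal
  rintro x hx y rfl
  exact D.adj_left w.2.1 w.2.2 x hx

theorem xu_mul : inj Γ D.u D.xu * inj Γ D.u D.xu = 1 := by
  rw [← inj_mul]
  have hxx : D.xu * D.xu = 1 := by
    rcases D.hu (D.xu * D.xu) with h1 | h1
    · exact h1
    · exact absurd (mul_eq_left.mp h1) D.hxu
  rw [hxx, inj_one]

theorem xv_mul : inj Γ D.v D.xv * inj Γ D.v D.xv = 1 := by
  rw [← inj_mul]
  have hxx : D.xv * D.xv = 1 := by
    rcases D.hv (D.xv * D.xv) with h1 | h1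
    · exact h1
    · exact absurd (mul_eq_left.mp h1) D.hxv
  rw [hxx, inj_one]

theorem _root_.Pool.Agent.GraphProd.dihedral_zpow {A : Type*} [Group A] {a b : A}
    (ha : a * a = 1) (hb : b * b = 1) (n : ℤ) : b * (a * b) ^ n = (a * b) ^ (-n) * b := by
  have h1 : b⁻¹ = b := inv_eq_of_mul_eq_one_left hb
  have h2 : a⁻¹ = a := inv_eq_of_mul_eq_one_left ha
  have h3 : b * (a * b) * b⁻¹ = (a * b)⁻¹ := by
    rw [mul_inv_rev, h2, mul_assoc, mul_assoc, mul_inv_cancel, mul_one, h1]
  rw [zpow_neg, ← inv_zpow, ← h3, conj_zpow, inv_mul_cancel_right]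

theorem xv_zpow (n : ℤ) : inj Γ D.v D.xv * D.t ^ n = D.t ^ (-n) * inj Γ D.v D.xv :=
  dihedral_zpow D.xu_mul D.xv_mul n

variable [Fintype V] [DecidableEq V]

theorem decomp (g : GraphProduct Γ G) : ∃ (n : ℤ) (w : GraphProduct Γ G),
    (w = 1 ∨ w = inj Γ D.v D.xv) ∧ ∃ κ ∈ Finset.univ.sup D.N, g = D.t ^ n * w * κ := by
  have hflip : ∀ w : GraphProduct Γ G, (w = 1 ∨ w = inj Γ D.v D.xv) →
      (inj Γ D.v D.xv * w = 1 ∨ inj Γ D.v D.xv * w = inj Γ D.v D.xv) := by
    rintro w (rfl | rfl)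
    · right; rw [mul_one]
    · left; exact D.xv_mul
  induction g using gp_induction with
  | h1 => exact ⟨0, 1, Or.inl rfl, 1, Subgroup.one_mem _, by simp⟩
  | hmul c a g ih =>
    obtain ⟨n, w, hw, κ, hκ, rfl⟩ := ih
    by_cases hcu : c = D.u
    · subst hcu
      rcases D.hu a with rfl | rfl
      · exact ⟨n, w, hw, κ, hκ, by rw [inj_one, one_mul]⟩
      · refine ⟨1 - n, inj Γ D.v D.xv * w, hflip w hw, κ, hκ, ?_⟩
        have h1 : inj Γ D.u D.xu = D.t * inj Γ D.v D.xv := by
          rw [t, mul_assoc, D.xv_mul, mul_one]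
        rw [h1]
        calc D.t * inj Γ D.v D.xv * (D.t ^ n * w * κ)
            = D.t * (inj Γ D.v D.xv * D.t ^ n) * w * κ := by simp only [mul_assoc]
          _ = D.t * (D.t ^ (-n) * inj Γ D.v D.xv) * w * κ := by rw [xv_zpow]
          _ = _ := by
            rw [sub_eq_add_neg, zpow_add, zpow_one]
            simp only [mul_assoc]
    · by_cases hcv : c = D.v
      · subst hcv
        rcases D.hv a with rfl | rfl
        · exact ⟨n, w, hw, κ, hκ, by rw [inj_one, one_mul]⟩
        · refine ⟨-n, inj Γ D.v D.xv * w, hflip w hw, κ, hκ, ?_⟩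
          calc inj Γ D.v D.xv * (D.t ^ n * w * κ)
              = (inj Γ D.v D.xv * D.t ^ n) * w * κ := by simp only [mul_assoc]
            _ = (D.t ^ (-n) * inj Γ D.v D.xv) * w * κ := by rw [xv_zpow]
            _ = _ := by simp only [mul_assoc]
      · refine ⟨n, w, hw, inj Γ c a * κ, Subgroup.mul_mem _ ?_ hκ, ?_⟩
        · have h0 : D.N ⟨c, hcu, hcv⟩ ≤ Finset.univ.sup D.N :=
            Finset.le_sup (Finset.mem_univ _)
          have h00 : inj Γ c a ∈ D.N ⟨c, hcu, hcv⟩ :=
            inj_mem_parabolic (Set.mem_singleton c) a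
          exact h0 h00
        · have h1 : Commute (inj Γ c a) (inj Γ D.u D.xu) :=
            inj_comm (D.adj_left hcu hcv D.u (Ne.symm hcu)).symm a D.xu
          have h2 : Commute (inj Γ c a) (inj Γ D.v D.xv) :=
            inj_comm (D.adj_left hcu hcv D.v (Ne.symm hcv)).symm a D.xv
          have h3 : Commute (inj Γ c a) (D.t ^ n) := (h1.mul_right h2).zpow_right n
          have h4 : Commute (inj Γ c a) w := by
            rcases hw with rfl | rfl
            · exact Commute.one_right _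
            · exact h2
          have h5 := (h3.mul_right h4).eq
          rw [← mul_assoc, h5, mul_assoc]

theorem sigma_N {κ : GraphProduct Γ G} (hκ : κ ∈ Finset.univ.sup D.N) : D.sigma κ = 1 := by
  have h1 : Finset.univ.sup D.N ≤ D.sigma.ker := by
    apply Finset.sup_le
    rintro w -
    intro x hx
    obtain ⟨g, rfl⟩ := mem_parabolic_singleton hx
    rw [MonoidHom.mem_ker, sigma_inj, D.sigmaFun_ne w.2.1 w.2.2]
    rfl
  exact h1 hκ

theorem sigma_v_zero {w : GraphProduct Γ G} (hw : w = 1 ∨ w = inj Γ D.v D.xv) :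
    D.sigma w 0 = 0 := by
  rcases hw with rfl | rfl
  · rw [map_one]; rfl
  · rw [sigma_inj, sigmaFun_v, twoHom_self]
    simp

include D in
theorem infinite : Infinite (GraphProduct Γ G) := by
  refine Infinite.of_injective (fun n : ℤ => D.t ^ n) ?_
  intro m n h
  have := congrArg (fun x => D.sigma x 0) h
  simpa only [sigma_zpow] using this

include D in
theorem virtuallyCyclic [∀ v, Finite (G v)] : VirtuallyCyclic (GraphProduct Γ G) := by
  refine ⟨D.t, ?_⟩
  have hfin : ((Finset.univ.sup D.N : Subgroup (GraphProduct Γ G)) :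
      Set (GraphProduct Γ G)).Finite := by
    apply finite_sup D.N D.N_normal
    intro w
    refine (Set.finite_range (fun g : G w.1 => inj Γ w.1 g)).subset ?_
    intro x hx
    obtain ⟨g, rfl⟩ := mem_parabolic_singleton hx
    exact ⟨g, rfl⟩
  set W : Set (GraphProduct Γ G) := Set.image2 (fun a b => a * b) {1, inj Γ D.v D.xv}
    ((Finset.univ.sup D.N : Subgroup (GraphProduct Γ G)) : Set (GraphProduct Γ G)) with hW
  have hWf : W.Finite := Set.Finite.image2 _ ((Set.finite_singleton _).insert _) hfin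
  have : Finite W := hWf
  have hsurj : Function.Surjective (fun x : W =>
      (QuotientGroup.mk (x : GraphProduct Γ G)⁻¹ :
        GraphProduct Γ G ⧸ Subgroup.zpowers D.t)) := by
    intro q
    obtain ⟨g, rfl⟩ := QuotientGroup.mk_surjective q
    obtain ⟨n, w, hw, κ, hκ, h⟩ := D.decomp g⁻¹
    refine ⟨⟨w * κ, Set.mem_image2_of_mem ?_ hκ⟩, ?_⟩
    · rcases hw with rfl | rfl
      · exact Set.mem_insert _ _
      · exact Set.mem_insert_of_mem _ rfl
    · change (QuotientGroup.mk (w * κ)⁻¹ : GraphProduct Γ G ⧸ Subgroup.zpowers D.t) =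
        QuotientGroup.mk g
      rw [QuotientGroup.eq, inv_inv, Subgroup.mem_zpowers_iff]
      refine ⟨-n, ?_⟩
      have h2 : w * κ = D.t ^ (-n) * g⁻¹ := by
        rw [h, mul_assoc, ← mul_assoc, ← zpow_add, neg_add_cancel, zpow_zero, one_mul]
      rw [h2, inv_mul_cancel_right]
  have := Finite.of_surjective _ hsurj
  exact Subgroup.finiteIndex_of_finite_quotient

include D in
theorem no_square {a b c d : V} : ¬ IsInducedSquare Γ a b c d := by
  rintro ⟨h1, h2, h3, h4, h5, h6, h7, h8⟩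
  rw [D.adj] at h3 h4 h5 h6 h7 h8
  grind

include D in
theorem mem_gens {s : GraphProduct Γ G} (hs : s ∈ gens Γ G {Λ | IsMinsquare Γ Λ}) :
    ∃ (w : V) (g : G w), s = inj Γ w g := by
  rcases hs with hs | ⟨Λ, hΛ, -⟩
  · exact hs
  · have hΛ' : IsMinsquare Γ Λ := hΛ
    obtain ⟨a, b, c, d, h, -⟩ := hΛ'.prop.2
    exact absurd h D.no_square

theorem sigma_dist (x y : GraphProduct Γ G) : |D.sigma x 0 - D.sigma y 0| ≤
    (cayleyGraph (gens Γ G {Λ | IsMinsquare Γ Λ})).dist x y := by
  obtain ⟨w, hw⟩ := (gens_connected (Γ := Γ) (G := G)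
    {Λ | IsMinsquare Γ Λ}).exists_walk_length_eq_dist x y
  rw [← hw]
  clear hw
  have key : ∀ a s : GraphProduct Γ G, s ∈ gens Γ G {Λ | IsMinsquare Γ Λ} →
      |D.sigma a 0 - D.sigma (a * s) 0| ≤ 1 := by
    intro a s hs
    obtain ⟨w, g, rfl⟩ := D.mem_gens hs
    rw [map_mul, Equiv.Perm.mul_apply, sigma_isometry, zero_sub, abs_neg]
    exact D.sigma_inj_zero w g
  induction w with
  | nil => simp
  | cons h p ih =>
    rename_i a b c
    rw [SimpleGraph.Walk.length_cons]
    have h1 : |D.sigma a 0 - D.sigma b 0| ≤ 1 := by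
      rcases h.2 with h2 | h2
      · have := key a _ h2
        rwa [mul_inv_cancel_left] at this
      · have := key b _ h2
        rwa [mul_inv_cancel_left, abs_sub_comm] at this
    have h2 := abs_sub_le (D.sigma a 0) (D.sigma b 0) (D.sigma c 0)
    push_cast
    linarith

theorem dist_sigma (x y : GraphProduct Γ G) :
    ((cayleyGraph (gens Γ G {Λ | IsMinsquare Γ Λ})).dist x y : ℤ) ≤
      2 * |D.sigma x 0 - D.sigma y 0| + (1 + Fintype.card D.I) := by
  have hc := gens_connected (Γ := Γ) (G := G) {Λ | IsMinsquare Γ Λ}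
  obtain ⟨n, w, hw, κ, hκ, h⟩ := D.decomp (x⁻¹ * y)
  have h1 := dist_le_one_inv_mul hc x y
  have h2 := dist_one_mul_le hc (D.t ^ n * w) κ
  have h3 := dist_one_mul_le hc (D.t ^ n) w
  have h4 := dist_sup_le hc D.N D.N_normal (fun w s hs => by
    obtain ⟨g, rfl⟩ := mem_parabolic_singleton hs
    exact Or.inl ⟨w.1, g, rfl⟩) Finset.univ κ hκ
  have h5 : (cayleyGraph (gens Γ G {Λ | IsMinsquare Γ Λ})).dist 1 w ≤ 1 := by
    rcases hw with rfl | rfl
    · rw [SimpleGraph.dist_self]; exact Nat.zero_le _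
    · exact dist_one_le (Or.inl ⟨_, _, rfl⟩)
  have h6 : (cayleyGraph (gens Γ G {Λ | IsMinsquare Γ Λ})).dist 1 D.t ≤ 2 := by
    have := dist_one_mul_le hc (inj Γ D.u D.xu) (inj Γ D.v D.xv)
    have h7 := dist_one_le (S := gens Γ G {Λ | IsMinsquare Γ Λ}) (s := inj Γ D.u D.xu)
      (Or.inl ⟨_, _, rfl⟩)
    have h8 := dist_one_le (S := gens Γ G {Λ | IsMinsquare Γ Λ}) (s := inj Γ D.v D.xv)
      (Or.inl ⟨_, _, rfl⟩)
    rw [t]
    omega
  have h7 : (cayleyGraph (gens Γ G {Λ | IsMinsquare Γ Λ})).dist 1 (D.t ^ n) ≤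
      n.natAbs * 2 := by
    rcases Int.eq_nat_or_neg n with ⟨m, rfl | rfl⟩
    · rw [zpow_natCast, Int.natAbs_natCast]
      exact (dist_one_pow_le hc D.t m).trans (Nat.mul_le_mul_left _ h6)
    · rw [zpow_neg, zpow_natCast, Int.natAbs_neg, Int.natAbs_natCast]
      exact (dist_one_inv hc _).trans
        ((dist_one_pow_le hc D.t m).trans (Nat.mul_le_mul_left _ h6))
  have h8 : (n.natAbs : ℤ) = |D.sigma x 0 - D.sigma y 0| := by
    have h9 : D.sigma (x⁻¹ * y) 0 = n := by
      rw [h, map_mul, map_mul, Equiv.Perm.mul_apply, Equiv.Perm.mul_apply, D.sigma_N hκ]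
      change D.sigma (D.t ^ n) (D.sigma w 0) = n
      rw [D.sigma_v_zero hw, sigma_zpow]
    have h10 := D.sigma_isometry x (D.sigma (x⁻¹ * y) 0) 0
    rw [← Equiv.Perm.mul_apply, ← map_mul, mul_inv_cancel_left, h9, sub_zero,
      abs_sub_comm] at h10
    rw [h10, Int.abs_eq_natAbs]
  rw [h] at h1
  rw [← h8]
  rw [Finset.card_univ] at h4
  omega

include D in
theorem isQuasiLine : IsQuasiLine (electrification Γ G) := by
  refine ⟨gens_connected _, fun x => ((D.sigma x 0 : ℤ) : ℝ), 2, 1 + Fintype.card D.I,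
    by norm_num, by positivity, ?_, ?_⟩
  · intro x y
    have h1 : |((D.sigma x 0 : ℤ) : ℝ) - ((D.sigma y 0 : ℤ) : ℝ)| ≤
        ((electrification Γ G).dist x y : ℝ) := by
      have := D.sigma_dist x y
      exact_mod_cast this
    have h2 : ((electrification Γ G).dist x y : ℝ) ≤
        2 * |((D.sigma x 0 : ℤ) : ℝ) - ((D.sigma y 0 : ℤ) : ℝ)| + (1 + Fintype.card D.I) := by
      have := D.dist_sigma x y
      exact_mod_cast this
    have h3 : (0 : ℝ) ≤ Fintype.card D.I := Nat.cast_nonneg _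
    have h4 : (0 : ℝ) ≤ ((electrification Γ G).dist x y : ℝ) := Nat.cast_nonneg _
    constructor
    · linarith
    · linarith
  · intro r
    refine ⟨D.t ^ ⌊r⌋, ?_⟩
    change |(((D.sigma (D.t ^ ⌊r⌋) 0 : ℤ) : ℝ)) - r| ≤ _
    rw [sigma_zpow, abs_sub_comm, abs_of_nonneg (by linarith [Int.floor_le r])]
    have := Int.lt_floor_add_one r
    have h3 : (0 : ℝ) ≤ Fintype.card D.I := Nat.cast_nonneg _
    linarith

end LineData

end Pool.Agent.GraphProd
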