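import Pool.Agent.GraphProd.Line

set_option autoImplicit false

/-!
# MP_7fb950_al: the two implications
-/

namespace Pool.Agent.GraphProd

variable {V : Type*} {Γ : SimpleGraph V} {G : V → Type*} [∀ v, Group (G v)]

theorem card_eq_two {A : Type*} [Group A] [Nontrivial A]
    (h : ∀ a a' : A, a ≠ 1 → a' ≠ 1 → a ≠ a' → False) : Nat.card A = 2 := by
  rw [Nat.card_eq_two_iff' (1 : A)]
  obtain ⟨a, ha⟩ := exists_ne (1 : A)
  refine ⟨a, ha, fun b hb => ?_⟩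
  by_contra hne
  exact h b a hb ha hne

/-- An uncovered pair of non-adjacent vertices forces the exceptional shape if there is no
branching. -/
theorem exceptional_of [∀ v, Nontrivial (G v)] {F : Set (Set V)}
    (hB : ¬ Branching (gens Γ G F)) (hsq : ∀ Λ ∈ F, SquareComplete Γ Λ) {u v : V} (huv : u ≠ v)
    (hadj : ¬ Γ.Adj u v) (hcov : ∀ Λ ∈ F, ¬ (u ∈ Λ ∧ v ∈ Λ)) :
    Nat.card (G u) = 2 ∧ Nat.card (G v) = 2 ∧
      ∀ x y, Γ.Adj x y ↔ x ≠ y ∧ ¬ (x = u ∧ y = v) ∧ ¬ (x = v ∧ y = u) := by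
  obtain ⟨xu, hxu⟩ := exists_ne (1 : G u)
  obtain ⟨xv, hxv⟩ := exists_ne (1 : G v)
  have hadj' : ¬ Γ.Adj v u := fun h => hadj h.symm
  have hcov' : ∀ Λ ∈ F, ¬ (v ∈ Λ ∧ u ∈ Λ) := fun Λ hΛ h => hcov Λ hΛ ⟨h.2, h.1⟩
  have hu : ∀ w, w ≠ u → w ≠ v → Γ.Adj u w := by
    intro w hwu hwv
    by_contra hcon
    obtain ⟨xw, hxw⟩ := exists_ne (1 : G w)
    exact hB (branching_triple huv hwu.symm hwv.symm hadj hcon
      (fun Λ hΛ h => hcov Λ hΛ ⟨h.1, h.2.1⟩) hxu hxv hxw)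
  have hv : ∀ w, w ≠ u → w ≠ v → Γ.Adj v w := by
    intro w hwu hwv
    by_contra hcon
    obtain ⟨xw, hxw⟩ := exists_ne (1 : G w)
    exact hB (branching_triple huv.symm hwv.symm hwu.symm hadj' hcon
      (fun Λ hΛ h => hcov' Λ hΛ ⟨h.1, h.2.1⟩) hxv hxu hxw)
  refine ⟨card_eq_two fun a a' ha ha' haa => hB (branching_pair huv hadj hcov ha ha' haa hxv),
    card_eq_two fun a a' ha ha' haa => hB (branching_pair huv.symm hadj' hcov' ha ha' haa hxu),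
    fun x y => ⟨fun h => ⟨h.ne, ?_, ?_⟩, ?_⟩⟩
  · rintro ⟨rfl, rfl⟩
    exact hadj h
  · rintro ⟨rfl, rfl⟩
    exact hadj' h
  · rintro ⟨h1, h2, h3⟩
    by_contra hcon
    by_cases hxu' : x = u
    · subst hxu'
      exact hcon (hu y h1.symm (fun h => h2 ⟨rfl, h⟩))
    by_cases hxv' : x = v
    · subst hxv'
      exact hcon (hv y (fun h => h3 ⟨rfl, h⟩) h1.symm)
    by_cases hyu : y = u
    · subst hyu
      exact hcon (hu x hxu' hxv').symm
    by_cases hyv : y = v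
    · subst hyv
      exact hcon (hv x hxu' hxv').symm
    have hs : IsInducedSquare Γ x v y u :=
      ⟨h1, huv.symm, (hv x hxu' hxv').symm, hv y hyu hyv, (hu y hyu hyv).symm,
        hu x hxu' hxv', hcon, hadj'⟩
    have hcov2 : ∀ Λ ∈ F, ¬ (x ∈ Λ ∧ y ∈ Λ) := by
      rintro Λ hΛ ⟨hx, hy⟩
      obtain ⟨h4, h5⟩ := hsq Λ hΛ x v y u hs hx hy
      exact hcov Λ hΛ ⟨h5, h4⟩
    obtain ⟨xx, hxx⟩ := exists_ne (1 : G x)
    obtain ⟨xy, hxy⟩ := exists_ne (1 : G y)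
    exact hB (branching_square huv hadj h1 hcon (Ne.symm hxu') (Ne.symm hyu) (Ne.symm hxv')
      (Ne.symm hyv) hcov hcov2 hxu hxv hxx hxy)

theorem exceptional_of_isQuasiLine [Fintype V] [∀ v, Nontrivial (G v)]
    (h : IsQuasiLine (electrification Γ G)) :
    ∃ u v, u ≠ v ∧ Nat.card (G u) = 2 ∧ Nat.card (G v) = 2 ∧
      ∀ x y, Γ.Adj x y ↔ x ≠ y ∧ ¬ (x = u ∧ y = v) ∧ ¬ (x = v ∧ y = u) := by
  by_contra hne
  have hB : ¬ Branching (gens Γ G {Λ | IsMinsquare Γ Λ}) :=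
    fun hb => not_quasiLine_of_branching hb h
  have h2 : ∀ u v, u ≠ v → ¬ Γ.Adj u v → ∃ Λ, IsMinsquare Γ Λ ∧ u ∈ Λ ∧ v ∈ Λ := by
    intro u v huv hadj
    by_contra hcon
    refine hne ⟨u, v, huv, exceptional_of hB ?_ huv hadj ?_⟩
    · intro Λ hΛ
      have hΛ' : IsMinsquare Γ Λ := hΛ
      exact hΛ'.prop.1
    · exact fun Λ hΛ h => hcon ⟨Λ, hΛ, h⟩
  have h3 : ∀ l k m, l ≠ k → l ≠ m → k ≠ m → ¬ Γ.Adj l k → ¬ Γ.Adj l m →
      ∃ Λ, IsMinsquare Γ Λ ∧ l ∈ Λ ∧ k ∈ Λ ∧ m ∈ Λ := by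
    intro l k m hlk hlm hkm hk hm
    by_contra hcon
    obtain ⟨a, ha⟩ := exists_ne (1 : G l)
    obtain ⟨b, hb⟩ := exists_ne (1 : G k)
    obtain ⟨c, hc⟩ := exists_ne (1 : G m)
    exact hB (branching_triple hlk hlm hkm hk hm (fun Λ hΛ h => hcon ⟨Λ, hΛ, h⟩) ha hb hc)
  exact not_quasiLine_of_bounded (Fintype.card V) (bounded_of_covered h2 h3) h

theorem finite_of_complete [Fintype V] [∀ v, Finite (G v)] (h : ∀ u v, u ≠ v → Γ.Adj u v) :
    Finite (GraphProduct Γ G) := by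
  have h1 := finite_sup (fun v => parabolic Γ G {v})
    (fun v => parabolic_normal (by
      intro u hu w hw
      rw [Set.mem_singleton_iff] at hw
      subst hw
      exact h u w hu))
    (fun v => (Set.finite_range (fun g : G v => inj Γ v g)).subset (by
      intro x hx
      obtain ⟨g, rfl⟩ := mem_parabolic_singleton hx
      exact ⟨g, rfl⟩)) Finset.univ
  rw [sup_parabolic_eq_top (fun v g => inj_mem_parabolic (Set.mem_singleton v) g)] at h1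
  rw [Subgroup.coe_top] at h1
  exact Set.finite_univ_iff.mp h1

theorem exceptional_of_virtuallyCyclic [Fintype V] [∀ v, Nontrivial (G v)] [∀ v, Finite (G v)]
    (hinf : Infinite (GraphProduct Γ G)) (hvc : VirtuallyCyclic (GraphProduct Γ G)) :
    ∃ u v, u ≠ v ∧ Nat.card (G u) = 2 ∧ Nat.card (G v) = 2 ∧
      ∀ x y, Γ.Adj x y ↔ x ≠ y ∧ ¬ (x = u ∧ y = v) ∧ ¬ (x = v ∧ y = u) := by
  by_contra hne
  have hB : ¬ Branching (gens Γ G ∅) := fun hb => not_virtuallyCyclic_of_branching hb hvc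
  have h2 : ∀ u v, u ≠ v → Γ.Adj u v := by
    intro u v huv
    by_contra hadj
    exact hne ⟨u, v, huv, exceptional_of hB (fun Λ hΛ => absurd hΛ (Set.notMem_empty Λ)) huv hadj
      (fun Λ hΛ => absurd hΛ (Set.notMem_empty Λ))⟩
  have := finite_of_complete (G := G) h2
  exact not_finite (GraphProduct Γ G)

theorem exists_lineData {u v : V} (huv : u ≠ v) (hu : Nat.card (G u) = 2)
    (hv : Nat.card (G v) = 2)
    (h : ∀ x y, Γ.Adj x y ↔ x ≠ y ∧ ¬ (x = u ∧ y = v) ∧ ¬ (x = v ∧ y = u)) :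
    Nonempty (LineData Γ G) := by
  rw [Nat.card_eq_two_iff' (1 : G u)] at hu
  rw [Nat.card_eq_two_iff' (1 : G v)] at hv
  obtain ⟨xu, hxu, hxu'⟩ := hu
  obtain ⟨xv, hxv, hxv'⟩ := hv
  refine ⟨⟨u, v, huv, h, xu, xv, hxu, hxv, ?_, ?_⟩⟩
  · intro g
    by_cases hg : g = 1
    · exact Or.inl hg
    · exact Or.inr (hxu' g hg)
  · intro g
    by_cases hg : g = 1
    · exact Or.inl hg
    · exact Or.inr (hxv' g hg)

end Pool.Agent.GraphProd
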