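import Pool.Agent.GraphProd.Tree

set_option autoImplicit false
set_option linter.unusedSectionVars false

namespace Pool.Agent.GraphProd

variable {V : Type*} {Γ : SimpleGraph V} {G : V → Type*} [∀ v, Group (G v)]

/-- The generating set attached to a family of sets of vertices. -/
def gens (Γ : SimpleGraph V) (G : V → Type*) [∀ v, Group (G v)] (F : Set (Set V)) :
    Set (GraphProduct Γ G) :=
  {s | (∃ (u : V) (g : G u), s = inj Γ u g) ∨ ∃ Λ ∈ F, s ∈ parabolic Γ G Λ}

theorem inv_mem_gens {F : Set (Set V)} {s : GraphProduct Γ G} (h : s ∈ gens Γ G F) :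
    s⁻¹ ∈ gens Γ G F := by
  rcases h with ⟨u, g, rfl⟩ | ⟨Λ, hΛ, hs⟩
  · exact Or.inl ⟨u, g⁻¹, (inj_inv u g).symm⟩
  · exact Or.inr ⟨Λ, hΛ, Subgroup.inv_mem _ hs⟩

section Theta

variable {l : V} {B : Type*} [Group B] {β : ∀ w, G w →* B}

open Classical in
/-- The action on the vertex groups. -/
noncomputable def thetaFun (l : V) (β : ∀ w, G w →* B) (w : V) :
    G w →* Equiv.Perm (Om (G l) B) :=
  if h : w = l then (by subst h; exact permA) else permB.comp (β w)

theorem thetaFun_self (β : ∀ w, G w →* B) : thetaFun l β l = permA := by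
  rw [thetaFun, dif_pos rfl]

theorem thetaFun_ne (β : ∀ w, G w →* B) {w : V} (h : w ≠ l) :
    thetaFun l β w = permB.comp (β w) := by
  rw [thetaFun, dif_neg h]

/-- The hypotheses on `β`. -/
structure Good (Γ : SimpleGraph V) (l : V) (β : ∀ w, G w →* B) : Prop where
  comm : ∀ u v, Γ.Adj u v → ∀ (g : G u) (k : G v), β u g * β v k = β v k * β u g
  triv : ∀ w, Γ.Adj l w → ∀ g : G w, β w g = 1

/-- The action of the graph product. -/
noncomputable def theta (hβ : Good Γ l β) : GraphProduct Γ G →* Equiv.Perm (Om (G l) B) :=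
  lift (thetaFun l β) (by
    intro u v huv g k
    by_cases hu : u = l
    · subst hu
      have hv : v ≠ u := huv.ne'
      rw [thetaFun_ne β hv, MonoidHom.comp_apply, hβ.triv v huv, map_one, mul_one, one_mul]
    · by_cases hv : v = l
      · subst hv
        rw [thetaFun_ne β hu, MonoidHom.comp_apply, hβ.triv u huv.symm, map_one, mul_one, one_mul]
      · rw [thetaFun_ne β hu, thetaFun_ne β hv, MonoidHom.comp_apply, MonoidHom.comp_apply,
          ← map_mul, ← map_mul, hβ.comm u v huv])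

theorem theta_self (hβ : Good Γ l β) (g : G l) : theta hβ (inj Γ l g) = permA g := by
  rw [theta, lift_inj, thetaFun_self]

theorem theta_ne (hβ : Good Γ l β) {w : V} (h : w ≠ l) (g : G w) :
    theta hβ (inj Γ w g) = permB (β w g) := by
  rw [theta, lift_inj, thetaFun_ne β h, MonoidHom.comp_apply]

theorem inv_parabolic (hβ : Good Γ l β) {Y : Type*} (ψ : Om (G l) B → Y) {Λ : Set V}
    (h : ∀ w ∈ Λ, ∀ (g : G w) x, ψ (theta hβ (inj Γ w g) x) = ψ x)
    {s : GraphProduct Γ G} (hs : s ∈ parabolic Γ G Λ) (x : Om (G l) B) :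
    ψ (theta hβ s x) = ψ x := by
  induction hs using Subgroup.closure_induction generalizing x with
  | mem s hs =>
    obtain ⟨w, hw, g, rfl⟩ := hs
    exact h w hw g x
  | one => rw [map_one]; rfl
  | mul s t _ _ h1 h2 => rw [map_mul, Equiv.Perm.mul_apply, h1, h2]
  | inv s _ h1 =>
    rw [← h1 (theta hβ s⁻¹ x), ← Equiv.Perm.mul_apply, ← map_mul, mul_inv_cancel, map_one]
    rfl

/-- The condition on a set of vertices under which its parabolic subgroup changes the number of
full letters by at most one. -/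
def Tame (l : V) (β : ∀ w, G w →* B) (full : B → Prop) (Λ : Set V) : Prop :=
  l ∉ Λ ∨ ∃ blk : B → Prop, ¬ blk 1 ∧ (∀ b, full b → blk b) ∧
    ∀ w ∈ Λ, w ≠ l → ∀ (g : G w) (c : B), blk (β w g * c) ↔ blk c

theorem cnt_parabolic (hβ : Good Γ l β) {full : B → Prop} {Λ : Set V}
    (h : Tame l β full Λ) {s : GraphProduct Γ G} (hs : s ∈ parabolic Γ G Λ)
    (x : Om (G l) B) : cnt full (theta hβ s x) ≤ cnt full x + 1 := by
  rcases h with h | ⟨blk, hb1, hb2, hb3⟩
  · have h1 := inv_parabolic hβ (fun x => cntL full x.2) (by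
      intro w hw g x
      have hwl : w ≠ l := by rintro rfl; exact h hw
      rw [theta_ne hβ hwl]
      rfl) hs x
    have h2 := (cnt_cntL (full := full) (theta hβ s x)).2
    have h3 := (cnt_cntL (full := full) x).1
    omega
  · have h1 := inv_parabolic hβ (after full blk) (by
      intro w hw g x
      by_cases hwl : w = l
      · subst hwl
        rw [theta_self]
        exact after_permA hb1 g x
      · rw [theta_ne hβ hwl]
        exact after_permB (hb3 w hw hwl g) x) hs x
    have h2 := (cnt_after hb2 (theta hβ s x)).2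
    have h3 := (cnt_after hb2 x).1
    omega

theorem cnt_gens (hβ : Good Γ l β) {full : B → Prop} (hf : ¬ full 1) {F : Set (Set V)}
    (hF : ∀ Λ ∈ F, Tame l β full Λ) {s : GraphProduct Γ G} (hs : s ∈ gens Γ G F)
    (x : Om (G l) B) : cnt full (theta hβ s x) ≤ cnt full x + 1 := by
  rcases hs with ⟨u, g, rfl⟩ | ⟨Λ, hΛ, hs⟩
  · by_cases hu : u = l
    · subst hu
      rw [theta_self, cnt_permA hf]
      exact Nat.le_succ _
    · rw [theta_ne hβ hu]
      have h1 := (cnt_cntL (full := full) (permB (β u g) x)).2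
      have h2 := (cnt_cntL (full := full) x).1
      rw [permB_apply] at h1 ⊢
      simp only at h1
      omega
  · exact cnt_parabolic hβ (hF Λ hΛ) hs x

/-- The length function. -/
noncomputable def lamT (hβ : Good Γ l β) (full : B → Prop) (g : GraphProduct Γ G) : ℕ :=
  cnt full (theta hβ g (1, []))

theorem lamT_one (hβ : Good Γ l β) {full : B → Prop} (hf : ¬ full 1) :
    lamT hβ full (1 : GraphProduct Γ G) = 0 := by
  classical
  rw [lamT, map_one]
  change cnt full ((1, []) : Om (G l) B) = 0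
  rw [cnt, if_neg hf]
  rfl

theorem lamT_mul (hβ : Good Γ l β) {full : B → Prop} (hf : ¬ full 1) {F : Set (Set V)}
    (hF : ∀ Λ ∈ F, Tame l β full Λ) {s : GraphProduct Γ G} (hs : s ∈ gens Γ G F)
    (g : GraphProduct Γ G) : lamT hβ full (s * g) ≤ lamT hβ full g + 1 := by
  rw [lamT, lamT, map_mul, Equiv.Perm.mul_apply]
  exact cnt_gens hβ hf hF hs _

end Theta

section Power

variable {l : V} {B : Type*} [Group B] {β : ∀ w, G w →* B}

theorem iter_pos (hβ : Good Γ l β) {h : GraphProduct Γ G} {a : G l} {κ : B}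
    (hh : ∀ x, theta hβ h x = permA a (permB κ x)) (n : ℕ) (x : Om (G l) B) :
    theta hβ (h ^ n) x = (fun x : Om (G l) B => permA a (permB κ x))^[n] x := by
  induction n generalizing x with
  | zero => rw [pow_zero, map_one]; rfl
  | succ n ih =>
    rw [pow_succ, map_mul, Equiv.Perm.mul_apply, Function.iterate_succ_apply, ← hh, ih]

theorem theta_inv_apply (hβ : Good Γ l β) {h : GraphProduct Γ G} {a : G l} {κ : B}
    (hh : ∀ x, theta hβ h x = permA a (permB κ x)) (x : Om (G l) B) :
    theta hβ h⁻¹ x = permB κ⁻¹ (permA a⁻¹ x) := by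
  have h1 : theta hβ h (permB κ⁻¹ (permA a⁻¹ x)) = x := by
    rw [hh, ← Equiv.Perm.mul_apply (permB κ), ← map_mul, mul_inv_cancel, map_one]
    change permA a (permA a⁻¹ x) = x
    rw [← Equiv.Perm.mul_apply, ← map_mul, mul_inv_cancel, map_one]
    rfl
  have h2 : theta hβ h⁻¹ (theta hβ h (permB κ⁻¹ (permA a⁻¹ x))) = permB κ⁻¹ (permA a⁻¹ x) := by
    rw [← Equiv.Perm.mul_apply, ← map_mul, inv_mul_cancel, map_one]
    rfl
  rwa [h1] at h2

theorem iter_neg (hβ : Good Γ l β) {h : GraphProduct Γ G} {a : G l} {κ : B}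
    (hh : ∀ x, theta hβ h x = permA a (permB κ x)) (n : ℕ) (x : Om (G l) B) :
    theta hβ ((h ^ n)⁻¹) x = (fun x : Om (G l) B => permB κ⁻¹ (permA a⁻¹ x))^[n] x := by
  induction n generalizing x with
  | zero => rw [pow_zero, inv_one, map_one]; rfl
  | succ n ih =>
    rw [pow_succ', mul_inv_rev, map_mul, Equiv.Perm.mul_apply, Function.iterate_succ_apply,
      ← theta_inv_apply hβ hh, ih]

theorem neg_iterate_fst {a : G l} (ha : a ≠ 1) {κ : B} (hκ : κ ≠ 1) (n : ℕ) :
    ((fun x : Om (G l) B => permB κ (permA a x))^[n + 1] (1, [])).1 = κ := by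
  induction n with
  | zero =>
    rw [zero_add, Function.iterate_one, permA_base, permB_apply, mul_one]
  | succ n ih =>
    rw [Function.iterate_succ_apply']
    generalize (fun x : Om (G l) B => permB κ (permA a x))^[n + 1] (1, []) = y at ih
    obtain ⟨b0, L⟩ := y
    simp only at ih
    subst ih
    rw [permA_of_ne ha hκ, permB_apply, mul_one]

theorem cnt_neg {full : B → Prop} {a : G l} (ha : a ≠ 1) {κ : B} (hκ : κ ≠ 1)
    (hf : full κ) (n : ℕ) :
    cnt full ((fun x : Om (G l) B => permB κ (permA a x))^[n] (1, [])) ≥ n := by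
  classical
  rcases n with _ | n
  · exact Nat.zero_le _
  · rw [Function.iterate_succ_apply, permA_base, permB_apply, mul_one,
      cnt_iterate ha hκ hf n hκ]
    rw [cnt, if_pos hf]
    omega

theorem cnt_pos {full : B → Prop} {a : G l} (ha : a ≠ 1) {κ : B}
    (hκ : κ ≠ 1) (hf : full κ) (n : ℕ) :
    cnt full ((fun x : Om (G l) B => permA a (permB κ x))^[n] (1, [])) ≥ n := by
  classical
  rw [pow_pos_base ha hκ, cnt, cntL_replicate _ _ hf]
  omega

theorem natAbs_le_lamT (hβ : Good Γ l β) {full : B → Prop}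
    {h : GraphProduct Γ G} {a : G l} {κ : B}
    (hh : ∀ x, theta hβ h x = permA a (permB κ x)) (ha : a ≠ 1) (hκ : κ ≠ 1)
    (hf : full κ) (hf' : full κ⁻¹) (j : ℤ) : j.natAbs ≤ lamT hβ full (h ^ j) := by
  rcases Int.eq_nat_or_neg j with ⟨n, rfl | rfl⟩
  · rw [Int.natAbs_natCast, zpow_natCast, lamT, iter_pos hβ hh]
    exact cnt_pos ha hκ hf n
  · rw [Int.natAbs_neg, Int.natAbs_natCast, zpow_neg, zpow_natCast, lamT, iter_neg hβ hh]
    exact cnt_neg (inv_ne_one.mpr ha) (inv_ne_one.mpr hκ) hf' n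

/-- Values of the powers of `h` at the base point. -/
theorem pow_base_cases (hβ : Good Γ l β) {h : GraphProduct Γ G} {a : G l} {κ : B}
    (hh : ∀ x, theta hβ h x = permA a (permB κ x)) (ha : a ≠ 1) (hκ : κ ≠ 1) (j : ℤ) :
    (theta hβ (h ^ j) (1, []) = (1, []) ∨
      ∃ (L : List (NT (G l) × NT B)), theta hβ (h ^ j) (1, []) =
        (1, (⟨a, ha⟩, ⟨κ, hκ⟩) :: L)) ∨ (theta hβ (h ^ j) (1, [])).1 = κ⁻¹ := by
  rcases Int.eq_nat_or_neg j with ⟨n, rfl | rfl⟩
  · left
    rw [zpow_natCast, iter_pos hβ hh, pow_pos_base ha hκ]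
    rcases n with _ | n
    · left; rfl
    · right; exact ⟨List.replicate n _, rfl⟩
  · rcases n with _ | n
    · left; left
      simp
    · right
      rw [zpow_neg, zpow_natCast, iter_neg hβ hh]
      exact neg_iterate_fst (inv_ne_one.mpr ha) (inv_ne_one.mpr hκ) n

end Power

end Pool.Agent.GraphProd
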