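import Pool.Agent.GraphProd.Branching

set_option autoImplicit false

/-!
The action of two groups `A` and `B` on the set of cosets `(A * B) / A` of their free product,
described by reduced words.
-/

namespace Pool.Agent.GraphProd

section Omega

variable {A B : Type*} [Group A] [Group B]

/-- Non-trivial elements. -/
abbrev NT (A : Type*) [Group A] : Type _ := {a : A // a ≠ 1}

/-- Reduced words `b₀ a₁ b₁ ⋯ a_r b_r` with `b₀` possibly trivial. -/
abbrev Om (A B : Type*) [Group A] [Group B] : Type _ := B × List (NT A × NT B)

open Classical in
/-- Inverse of `omEquiv`. -/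
noncomputable def omInv : Option (A × NT B × List (NT A × NT B)) → Om A B
  | none => (1, [])
  | some (a, b, L) => if h : a = 1 then ((b : B), L) else (1, (⟨a, h⟩, b) :: L)

open Classical in
/-- Separate the leading element of `A`. -/
noncomputable def omFun : Om A B → Option (A × NT B × List (NT A × NT B))
  | (b0, L) => if h : b0 = 1 then
      (match L with
        | [] => none
        | (a, b) :: L' => some ((a : A), b, L'))
    else some (1, ⟨b0, h⟩, L)

theorem omFun_omInv (x : Option (A × NT B × List (NT A × NT B))) : omFun (omInv x) = x := by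
  rcases x with _ | ⟨a, b, L⟩
  · simp [omInv, omFun]
  · by_cases h : a = 1
    · simp [omInv, omFun, h, b.2]
    · simp [omInv, omFun, h]

theorem omInv_omFun (x : Om A B) : omInv (omFun x) = x := by
  obtain ⟨b0, L⟩ := x
  by_cases h : b0 = 1
  · rcases L with _ | ⟨⟨a, b⟩, L'⟩
    · simp [omInv, omFun, h]
    · simp [omInv, omFun, h, a.2]
  · simp [omInv, omFun, h]

/-- The equivalence separating the leading element of `A`. -/
noncomputable def omEquiv : Om A B ≃ Option (A × NT B × List (NT A × NT B)) :=
  ⟨omFun, omInv, omInv_omFun, omFun_omInv⟩

/-- Left multiplication on the leading element of `A`. -/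
def preA (a : A) : Option (A × NT B × List (NT A × NT B)) →
    Option (A × NT B × List (NT A × NT B))
  | none => none
  | some (a', b, L) => some (a * a', b, L)

/-- The action of `A`. -/
noncomputable def permA : A →* Equiv.Perm (Om A B) where
  toFun a := ⟨fun x => omInv (preA a (omFun x)), fun x => omInv (preA a⁻¹ (omFun x)),
    fun x => by
      beta_reduce
      rw [omFun_omInv]
      rcases hx : omFun x with _ | ⟨a', b, L⟩
      · change omInv none = x
        rw [← hx, omInv_omFun]
      · change omInv (some (a⁻¹ * (a * a'), b, L)) = x
        rw [inv_mul_cancel_left, ← hx, omInv_omFun],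
    fun x => by
      beta_reduce
      rw [omFun_omInv]
      rcases hx : omFun x with _ | ⟨a', b, L⟩
      · change omInv none = x
        rw [← hx, omInv_omFun]
      · change omInv (some (a * (a⁻¹ * a'), b, L)) = x
        rw [mul_inv_cancel_left, ← hx, omInv_omFun]⟩
  map_one' := by
    apply Equiv.ext
    intro x
    change omInv (preA 1 (omFun x)) = x
    rcases hx : omFun x with _ | ⟨a', b, L⟩
    · change omInv none = x
      rw [← hx, omInv_omFun]
    · change omInv (some (1 * a', b, L)) = x
      rw [one_mul, ← hx, omInv_omFun]
  map_mul' a c := by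
    apply Equiv.ext
    intro x
    change omInv (preA (a * c) (omFun x)) = omInv (preA a (omFun (omInv (preA c (omFun x)))))
    rw [omFun_omInv]
    rcases omFun x with _ | ⟨a', b, L⟩
    · rfl
    · change omInv (some (a * c * a', b, L)) = omInv (some (a * (c * a'), b, L))
      rw [mul_assoc]

/-- The action of `B`. -/
def permB : B →* Equiv.Perm (Om A B) where
  toFun b := ⟨fun x => (b * x.1, x.2), fun x => (b⁻¹ * x.1, x.2),
    fun x => by simp, fun x => by simp⟩
  map_one' := by
    apply Equiv.ext
    intro x
    change (1 * x.1, x.2) = x
    rw [one_mul]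
  map_mul' a c := by
    apply Equiv.ext
    intro x
    change (a * c * x.1, x.2) = (a * (c * x.1), x.2)
    rw [mul_assoc]

theorem permB_apply (b : B) (x : Om A B) : permB b x = (b * x.1, x.2) := rfl

theorem permA_base (a : A) : permA a ((1, []) : Om A B) = (1, []) := by
  change omInv (preA a (omFun (1, []))) = _
  simp [omFun, preA, omInv]

theorem permA_of_ne {a : A} (ha : a ≠ 1) {b : B} (hb : b ≠ 1) (L : List (NT A × NT B)) :
    permA a ((b, L) : Om A B) = (1, (⟨a, ha⟩, ⟨b, hb⟩) :: L) := by
  change omInv (preA a (omFun (b, L))) = _
  simp [omFun, preA, omInv, hb, ha]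

theorem permA_cons (a : A) (a' : NT A) (h : a * (a' : A) ≠ 1) (b : NT B)
    (L : List (NT A × NT B)) :
    permA a ((1, (a', b) :: L) : Om A B) = (1, (⟨a * a', h⟩, b) :: L) := by
  change omInv (preA a (omFun (1, (a', b) :: L))) = _
  simp [omFun, preA, omInv, h]

/-- A function on the words which only depends on the letter of `B` and the rest after the leading
element of `A` is invariant under `A`. -/
theorem inv_permA {Y : Type*} (ψ : Om A B → Y)
    (hψ : ∀ (a : NT A) (b : NT B) (L : List (NT A × NT B)),
      ψ (1, (a, b) :: L) = ψ ((b : B), L)) (a : A) (x : Om A B) : ψ (permA a x) = ψ x := by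
  have key : ∀ (a : A) (b : NT B) (L : List (NT A × NT B)),
      ψ (omInv (some (a, b, L))) = ψ ((b : B), L) := by
    intro a b L
    by_cases h : a = 1
    · simp [omInv, h]
    · simp only [omInv, h, dite_false]
      exact hψ _ _ _
  change ψ (omInv (preA a (omFun x))) = ψ x
  rcases hx : omFun x with _ | ⟨a', b, L⟩
  · change ψ (omInv none) = ψ x
    rw [← hx, omInv_omFun]
  · change ψ (omInv (some (a * a', b, L))) = ψ x
    rw [key, ← key a' b L, ← hx, omInv_omFun]

open Classical in
/-- Number of full letters of `B` in the list. -/
noncomputable def cntL (full : B → Prop) : List (NT A × NT B) → ℕ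
  | [] => 0
  | x :: L => (if full (x.2 : B) then 1 else 0) + cntL full L

open Classical in
/-- Number of full letters of `B`. -/
noncomputable def cnt (full : B → Prop) (x : Om A B) : ℕ :=
  (if full x.1 then 1 else 0) + cntL full x.2

open Classical in
/-- Number of full letters after the first blocking letter. -/
noncomputable def afterL (full blk : B → Prop) : List (NT A × NT B) → ℕ
  | [] => 0
  | x :: L => if blk (x.2 : B) then cntL full L else afterL full blk L

open Classical in
/-- Number of full letters after the first blocking letter. -/
noncomputable def after (full blk : B → Prop) (x : Om A B) : ℕ :=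
  if blk x.1 then cntL full x.2 else afterL full blk x.2

theorem cntL_afterL {full blk : B → Prop} (h : ∀ b, full b → blk b) (L : List (NT A × NT B)) :
    afterL full blk L ≤ cntL full L ∧ cntL full L ≤ afterL full blk L + 1 := by
  classical
  induction L with
  | nil => simp [afterL, cntL]
  | cons x L ih =>
    rw [afterL, cntL]
    by_cases hb : blk (x.2 : B)
    · rw [if_pos hb]
      split_ifs <;> omega
    · rw [if_neg hb, if_neg fun hf => hb (h _ hf)]
      omega

theorem cnt_after {full blk : B → Prop} (h : ∀ b, full b → blk b) (x : Om A B) :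
    after full blk x ≤ cnt full x ∧ cnt full x ≤ after full blk x + 1 := by
  classical
  rw [after, cnt]
  have := cntL_afterL (A := A) h x.2
  by_cases hb : blk x.1
  · rw [if_pos hb]
    split_ifs <;> omega
  · rw [if_neg hb, if_neg fun hf => hb (h _ hf)]
    omega

theorem after_permA {full blk : B → Prop} (hblk : ¬ blk 1) (a : A) (x : Om A B) :
    after full blk (permA a x) = after full blk x := by
  classical
  apply inv_permA
  intro a b L
  rw [after, after, if_neg hblk, afterL]

theorem after_permB {full blk : B → Prop} {b : B} (hb : ∀ c, blk (b * c) ↔ blk c)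
    (x : Om A B) : after full blk (permB b x) = after full blk x := by
  classical
  rw [after, after, permB_apply]
  simp only [hb]

theorem cnt_permA {full : B → Prop} (hf : ¬ full 1) (a : A) (x : Om A B) :
    cnt full (permA a x) = cnt full x := by
  classical
  apply inv_permA
  intro a b L
  rw [cnt, cnt, if_neg hf, cntL, zero_add]

theorem cnt_cntL {full : B → Prop} (x : Om A B) :
    cntL full x.2 ≤ cnt full x ∧ cnt full x ≤ cntL full x.2 + 1 := by
  classical
  rw [cnt]
  split_ifs <;> omega

/-- The word `(a κ)^n` applied to the base point. -/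
theorem pow_pos_base {a : A} (ha : a ≠ 1) {κ : B} (hκ : κ ≠ 1) (n : ℕ) :
    (fun x : Om A B => permA a (permB κ x))^[n] (1, []) =
      (1, List.replicate n (⟨a, ha⟩, ⟨κ, hκ⟩)) := by
  induction n with
  | zero => rfl
  | succ n ih =>
    rw [Function.iterate_succ_apply', ih, permB_apply]
    simp only [mul_one]
    rw [permA_of_ne ha hκ]
    rfl

theorem cntL_replicate {full : B → Prop} (a : NT A) (κ : NT B) (hf : full (κ : B)) (n : ℕ) :
    cntL full (List.replicate n (a, κ)) = n := by
  classical
  induction n with
  | zero => rfl
  | succ n ih =>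
    rw [List.replicate_succ, cntL, if_pos hf, ih]
    omega

/-- Applying `(κ a)` to words starting with a non-trivial letter of `B`. -/
theorem cnt_iterate {full : B → Prop} {a : A} (ha : a ≠ 1) {κ : B} (hκ : κ ≠ 1)
    (hf : full κ) (n : ℕ) {b0 : B} (hb0 : b0 ≠ 1) (L : List (NT A × NT B)) :
    cnt full ((fun x : Om A B => permB κ (permA a x))^[n] (b0, L)) = n + cnt full (b0, L) := by
  classical
  induction n generalizing b0 L with
  | zero => simp
  | succ n ih =>
    rw [Function.iterate_succ_apply, permA_of_ne ha hb0, permB_apply]
    simp only [mul_one]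
    rw [ih hκ]
    simp only [cnt, cntL, if_pos hf]
    omega

end Omega

end Pool.Agent.GraphProd
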